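import Mathlib

/-! The cycle closing lemma for total colourings with five colours. -/

namespace MP_db9399_co.Sub3

open Finset

theorem exists_ne4 (a b c d : Fin 5) : ∃ x : Fin 5, x ≠ a ∧ x ≠ b ∧ x ≠ c ∧ x ≠ d := by
  revert a b c d; decide

/-- Conditions at a position of the chain. -/
def Loc (p c x e : Fin 5) : Prop := x ≠ p ∧ x ≠ c ∧ x ≠ e ∧ c ≠ e

/-- Conditions linking consecutive positions. -/
def Lnk (x e c' x' e' : Fin 5) : Prop := x ≠ x' ∧ e ≠ x' ∧ e ≠ e' ∧ e ≠ c'

/-- Fullness is preserved. -/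
theorem full_step (p g : Fin 5) (g' x' e' : Fin 5) (h1 : x' ≠ g')
    (h2 : e' ≠ g') (h3 : e' ≠ x') :
    ∃ x e, Loc p g x e ∧ Lnk x e g' x' e' := by
  by_cases hg : g = g' ∨ g = x' ∨ g = e'
  · obtain ⟨x, hx1, hx2, hx3, -⟩ := exists_ne4 p g x' x'
    rcases hg with hg | hg | hg
    · subst hg
      obtain ⟨e, he1, he2, he3, he4⟩ := exists_ne4 g x x' e'
      exact ⟨x, e, ⟨hx1, hx2, he2.symm, he1.symm⟩, hx3, he3, he4, he1⟩
    · subst hg
      obtain ⟨e, he1, he2, he3, he4⟩ := exists_ne4 g x g' e'
      exact ⟨x, e, ⟨hx1, hx2, he2.symm, he1.symm⟩, hx3, he1, he4, he3⟩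
    · subst hg
      obtain ⟨e, he1, he2, he3, he4⟩ := exists_ne4 g x g' x'
      exact ⟨x, e, ⟨hx1, hx2, he2.symm, he1.symm⟩, hx3, he4, he1, he3⟩
  · simp only [not_or] at hg
    obtain ⟨hg1, hg2, hg3⟩ := hg
    obtain ⟨e, he1, he2, he3, he4⟩ := exists_ne4 g g' x' e'
    by_cases hp : p = g'
    · refine ⟨e', e, ⟨?_, Ne.symm hg3, he4.symm, he1.symm⟩, h3, he3, he4, he2⟩
      rw [hp]; exact h2
    · exact ⟨g', e, ⟨fun h => hp h.symm, fun h => hg1 h.symm, he2.symm, he1.symm⟩, h1.symm, he3,
        he4, he2⟩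

/-- The window lemma. -/
theorem window (p g a : Fin 5) (hpg : g ≠ p) (hap : a ≠ p) (hag : a ≠ g) (g' x' e' : Fin 5)
    (h1 : x' ≠ g') (h2 : e' ≠ g') (h3 : e' ≠ x') :
    ∃ c x e, (c = g ∨ c = a) ∧ Loc p c x e ∧ Lnk a p c x e ∧ Lnk x e g' x' e' := by
  by_cases hd : (a ≠ g' ∧ a ≠ x' ∧ a ≠ e') ∧ (p ≠ g' ∧ p ≠ x' ∧ p ≠ e')
  · obtain ⟨⟨a1, a2, a3⟩, p1, p2, p3⟩ := hd
    by_cases hg : g = g'
    · refine ⟨g, e', a, Or.inl rfl, ⟨p3.symm, ?_, a3.symm, hag.symm⟩, ⟨a3, p3, hap.symm,
        hpg.symm⟩, h3, a2, a3, a1⟩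
      rw [hg]; exact h2
    · exact ⟨g, g', a, Or.inl rfl, ⟨p1.symm, fun h => hg h.symm, a1.symm, hag.symm⟩,
        ⟨a1, p1, hap.symm, hpg.symm⟩, h1.symm, a2, a3, a1⟩
  · -- the five colours `a, p, g', x', e'` are at most four
    have hE : ∃ e : Fin 5, e ≠ a ∧ e ≠ p ∧ e ≠ g' ∧ e ≠ x' ∧ e ≠ e' := by
      by_cases q1 : a = g'
      · subst q1
        obtain ⟨e, b1, b2, b3, b4⟩ := exists_ne4 a p x' e'
        exact ⟨e, b1, b2, b1, b3, b4⟩
      by_cases q2 : a = x'
      · subst q2
        obtain ⟨e, b1, b2, b3, b4⟩ := exists_ne4 a p g' e'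
        exact ⟨e, b1, b2, b3, b1, b4⟩
      by_cases q3 : a = e'
      · subst q3
        obtain ⟨e, b1, b2, b3, b4⟩ := exists_ne4 a p g' x'
        exact ⟨e, b1, b2, b3, b4, b1⟩
      by_cases q4 : p = g'
      · subst q4
        obtain ⟨e, b1, b2, b3, b4⟩ := exists_ne4 a p x' e'
        exact ⟨e, b1, b2, b2, b3, b4⟩
      by_cases q5 : p = x'
      · subst q5
        obtain ⟨e, b1, b2, b3, b4⟩ := exists_ne4 a p g' e'
        exact ⟨e, b1, b2, b3, b2, b4⟩
      by_cases q6 : p = e'
      · subst q6
        obtain ⟨e, b1, b2, b3, b4⟩ := exists_ne4 a p g' x'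
        exact ⟨e, b1, b2, b3, b4, b2⟩
      exact absurd ⟨⟨q1, q2, q3⟩, q4, q5, q6⟩ hd
    by_cases hg : g' ≠ a ∧ g' ≠ p
    · obtain ⟨e, b1, b2, b3, b4, b5⟩ := hE
      exact ⟨a, g', e, Or.inr rfl, ⟨hg.2, hg.1, b3.symm, b1.symm⟩,
        ⟨hg.1.symm, hg.2.symm, b2.symm, hap.symm⟩, h1.symm, b4, b5, b3⟩
    by_cases hg2 : e' ≠ a ∧ e' ≠ p
    · obtain ⟨e, b1, b2, b3, b4, b5⟩ := hE
      exact ⟨a, e', e, Or.inr rfl, ⟨hg2.2, hg2.1, b5.symm, b1.symm⟩,
        ⟨hg2.1.symm, hg2.2.symm, b2.symm, hap.symm⟩, h3, b4, b5, b3⟩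
    obtain ⟨x, x1, x2, x3, -⟩ := exists_ne4 a p x' x'
    obtain ⟨e, b1, b2, b3, b4⟩ := exists_ne4 a p x x'
    refine ⟨a, x, e, Or.inr rfl, ⟨x2, x1, b3.symm, b1.symm⟩, ⟨x1.symm, x2.symm, b2.symm,
      hap.symm⟩, x3, b4, ?_, ?_⟩
    · intro h
      exact hg2 ⟨fun h' => b1 (h.trans h'), fun h' => b2 (h.trans h')⟩
    · intro h
      exact hg ⟨fun h' => b1 (h.trans h'), fun h' => b2 (h.trans h')⟩

/-- A valid closed (linear notation) sequence: positions `0 .. n`, position `n` repeats `0`. -/
theorem reach (p g : ℕ → Fin 5) (hpg : g 1 ≠ p 1) (h01 : g 0 ≠ p 1) (a : Fin 5)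
    (ha0 : a ≠ p 0) (ha0' : a ≠ g 0) (ha1 : a ≠ p 1) (ha1' : a ≠ g 1) (k : ℕ) (hk : 2 ≤ k)
    (x' e' : Fin 5) (h1 : x' ≠ g k) (h2 : e' ≠ g k) (h3 : e' ≠ x') :
    ∃ (c x e : ℕ → Fin 5), (∀ i, i ≠ 1 → c i = g i) ∧ (c 1 = g 1 ∨ c 1 = a) ∧ x 0 = a ∧
      e 0 = p 1 ∧ x k = x' ∧ e k = e' ∧
      ∀ i < k, Loc (p i) (c i) (x i) (e i) ∧ Lnk (x i) (e i) (c (i + 1)) (x (i + 1)) (e (i + 1)) := by
  induction k, hk using Nat.le_induction generalizing x' e' with
  | base =>
    obtain ⟨c1, x1, e1, hc, hL, hk1, hk2⟩ := window (p 1) (g 1) a hpg ha1 ha1' (g 2) x' e'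
      h1 h2 h3
    refine ⟨fun i => if i = 1 then c1 else g i, fun i => if i = 0 then a else if i = 1 then x1
      else x', fun i => if i = 0 then p 1 else if i = 1 then e1 else e', ?_, ?_, ?_, ?_, ?_, ?_,
      ?_⟩
    · intro i hi; simp [hi]
    · simpa using hc
    · simp
    · simp
    · simp
    · simp
    · intro i hi
      interval_cases i
      · exact ⟨⟨ha0, ha0', ha1, h01⟩, by simpa using hk1⟩
      · exact ⟨by simpa using hL, by simpa using hk2⟩
  | succ k hk ih =>
    obtain ⟨x, e, hL, hk1⟩ := full_step (p k) (g k) (g (k + 1)) x' e' h1 h2 h3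
    obtain ⟨c, X, E, hc, hc1, hX0, hE0, hXk, hEk, hall⟩ := ih x e hL.2.1 (fun h => hL.2.2.2 h.symm)
      (fun h => hL.2.2.1 h.symm)
    refine ⟨c, fun i => if i = k + 1 then x' else X i, fun i => if i = k + 1 then e' else E i,
      hc, hc1, ?_, ?_, ?_, ?_, ?_⟩
    · simpa using hX0
    · simpa using hE0
    · simp
    · simp
    · intro i hi
      by_cases hik : i = k
      · subst hik
        have hci : c i = g i := hc i (by omega)
        have hci' : c (i + 1) = g (i + 1) := hc (i + 1) (by omega)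
        simp only [if_neg (show i ≠ i + 1 by omega), if_true, hXk, hEk, hci, hci']
        exact ⟨hL, hk1⟩
      · simp only [if_neg (show i ≠ k + 1 by omega), if_neg (show i + 1 ≠ k + 1 by omega)]
        exact hall i (by omega)

theorem val_succ {n : ℕ} (hn : 3 ≤ n) (k : ZMod n) :
    (k + 1).val = k.val + 1 ∨ ((k + 1).val = 0 ∧ k.val + 1 = n) := by
  have : NeZero n := ⟨by omega⟩
  have : Fact (1 < n) := ⟨by omega⟩
  have h := ZMod.val_add k 1
  rw [ZMod.val_one] at h
  have hlt := ZMod.val_lt k
  by_cases hk : k.val + 1 < n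
  · left; rw [h, Nat.mod_eq_of_lt hk]
  · right
    have hk' : k.val + 1 = n := by omega
    exact ⟨by rw [h, hk', Nat.mod_self], hk'⟩

/-- Closed solutions on the cycle `ZMod n`. -/
structure CSol (n : ℕ) (p c x e : ZMod n → Fin 5) : Prop where
  loc : ∀ i, Loc (p i) (c i) (x i) (e i)
  lnk : ∀ i, Lnk (x i) (e i) (c (i + 1)) (x (i + 1)) (e (i + 1))

theorem to_cyc {n : ℕ} (hn : 3 ≤ n) (s : ZMod n) (p : ZMod n → Fin 5) (C X E : ℕ → Fin 5)
    (hC : C n = C 0) (hX : X n = X 0) (hE : E n = E 0)
    (h : ∀ i < n, Loc (p (s + (i : ℕ))) (C i) (X i) (E i) ∧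
      Lnk (X i) (E i) (C (i + 1)) (X (i + 1)) (E (i + 1))) :
    CSol n p (fun j => C (j - s).val) (fun j => X (j - s).val) (fun j => E (j - s).val) := by
  have : NeZero n := ⟨by omega⟩
  constructor
  · intro j
    have h1 := (h (j - s).val (ZMod.val_lt _)).1
    rw [ZMod.natCast_zmod_val, add_sub_cancel] at h1
    exact h1
  · intro j
    have h1 := (h (j - s).val (ZMod.val_lt _)).2
    have h2 : j + 1 - s = (j - s) + 1 := by ring
    rw [h2]
    rcases val_succ hn (j - s) with h3 | ⟨h3, h4⟩
    · rw [h3]; exact h1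
    · rw [h4] at h1
      rw [h3, ← hC, ← hX, ← hE]
      exact h1

theorem greedy_ext {ι κ : Type*} [Fintype ι] [DecidableEq ι] [DecidableEq κ] (Q : ι → ι → Prop)
    [DecidableRel Q] (hQ : ∀ i j, Q i j → Q j i) (L : ι → Finset κ) (S0 : Finset ι) (c0 : ι → κ)
    (h0 : ∀ i ∈ S0, ∀ j ∈ S0, i ≠ j → Q i j → c0 i ≠ c0 j)
    (hL : ∀ j ∉ S0, (univ.filter (fun i => i ≠ j ∧ Q i j)).card < (L j).card) :
    ∃ c : ι → κ, (∀ j ∈ S0, c j = c0 j) ∧ (∀ j ∉ S0, c j ∈ L j) ∧
      ∀ i j, i ≠ j → Q i j → c i ≠ c j := by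
  induction h : (univ \ S0).card generalizing S0 c0 with
  | zero =>
    have hP : ∀ v, v ∈ S0 := by
      intro v
      by_contra hv
      have : v ∈ univ \ S0 := by simp [hv]
      rw [card_eq_zero] at h
      rw [h] at this
      simp at this
    exact ⟨c0, fun _ _ => rfl, fun j hj => absurd (hP j) hj, fun i j => h0 i (hP i) j (hP j)⟩
  | succ m ih =>
    obtain ⟨v, hv⟩ : (univ \ S0).Nonempty := by rw [← card_pos]; omega
    have hvS : v ∉ S0 := by simpa using hv
    obtain ⟨γ, hγL, hγ⟩ : ∃ γ ∈ L v, γ ∉ (univ.filter (fun i => i ≠ v ∧ Q i v)).image c0 := by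
      by_contra hcon
      push Not at hcon
      have h1 : L v ⊆ (univ.filter (fun i => i ≠ v ∧ Q i v)).image c0 := fun γ h => hcon γ h
      have h2 := (card_le_card h1).trans card_image_le
      have := hL v hvS
      omega
    have hγ' : ∀ i, i ≠ v → Q i v → c0 i ≠ γ := by
      intro i hi hQi hc
      apply hγ
      rw [mem_image]
      exact ⟨i, by simp [hi, hQi], hc⟩
    have hcard : (univ \ insert v S0).card = m := by
      have : univ \ insert v S0 = (univ \ S0).erase v := by
        ext w
        simp only [mem_sdiff, mem_univ, true_and, mem_insert, mem_erase, not_or]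
      rw [this, card_erase_of_mem hv]
      omega
    obtain ⟨c, hc1, hc2, hc3⟩ := ih (insert v S0) (Function.update c0 v γ) (by
        intro i hi j hj hij hQij
        rw [mem_insert] at hi hj
        by_cases hiv : i = v
        · subst hiv
          rw [Function.update_self, Function.update_of_ne hij.symm]
          exact (hγ' j hij.symm (hQ _ _ hQij)).symm
        · by_cases hjv : j = v
          · subst hjv
            rw [Function.update_self, Function.update_of_ne hij]
            exact hγ' i hij hQij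
          · rw [Function.update_of_ne hiv, Function.update_of_ne hjv]
            exact h0 i (hi.resolve_left hiv) j (hj.resolve_left hjv) hij hQij)
      (by
        intro j hj
        exact hL j (fun h => hj (mem_insert_of_mem h))) hcard
    refine ⟨c, ?_, ?_, hc3⟩
    · intro j hj
      rw [hc1 j (mem_insert_of_mem hj), Function.update_of_ne]
      rintro rfl
      exact hvS hj
    · intro j hj
      by_cases hjv : j = v
      · subst hjv
        rw [hc1 j (mem_insert_self _ _), Function.update_self]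
        exact hγL
      · apply hc2
        simp [hjv, hj]

theorem exists_mem_ne {s : Finset (Fin 5)} (h : 2 ≤ s.card) (a : Fin 5) : ∃ b ∈ s, b ≠ a := by
  by_contra hcon
  push Not at hcon
  have : s ⊆ {a} := fun b hb => by simpa using hcon b hb
  have := card_le_card this
  simp at this
  omega

/-- The cycle lemma. -/
theorem cycle_lemma {n : ℕ} (hn : 3 ≤ n) [NeZero n] {β : Type*} [DecidableEq β] (z : ZMod n → β)
    (p : ZMod n → Fin 5) (P : ZMod n → Finset (Fin 5)) (hp : ∀ i, p i ∉ P i)
    (hcard : ∀ i, (univ.filter (fun j => z j = z i)).card + 1 ≤ (P i).card) :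
    ∃ c x e : ZMod n → Fin 5, (∀ i, c i ∈ P i) ∧ (∀ i j, i ≠ j → z i = z j → c i ≠ c j) ∧
      CSol n p c x e := by
  have : Fact (1 < n) := ⟨by omega⟩
  have h10 : (1 : ZMod n) ≠ 0 := one_ne_zero
  have hself : ∀ i, 1 ≤ (univ.filter (fun j => z j = z i)).card := by
    intro i
    rw [Nat.one_le_iff_ne_zero, ← Nat.pos_iff_ne_zero, card_pos]
    exact ⟨i, by simp⟩
  have hP2 : ∀ i, 2 ≤ (P i).card := fun i => le_trans (by have := hself i; omega) (hcard i)
  by_cases hD : ∃ (s : ZMod n) (γ a : Fin 5), γ ∈ P s ∧ γ ≠ p (s + 1) ∧ a ∈ P (s + 1) ∧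
      a ≠ p s ∧ a ≠ γ
  · obtain ⟨s, γ, a, hγ, hγp, ha, hap, haγ⟩ := hD
    have hs1 : s + 1 ≠ s := by
      intro h
      simp at h
    obtain ⟨g, hg1, hg2, hg3⟩ := greedy_ext (fun i j => z i = z j) (fun i j h => h.symm)
      (fun j => if z j = z (s + 1) then (P j).erase a else P j) {s} (fun _ => γ)
      (by
        intro i hi j hj hij
        rw [mem_singleton] at hi hj
        exact absurd (hi.trans hj.symm) hij)
      (by
        intro j hj
        have h1 : (univ.filter (fun i => i ≠ j ∧ z i = z j)) =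
            (univ.filter (fun i => z i = z j)).erase j := by
          ext i; simp
        rw [h1, card_erase_of_mem (by simp)]
        have h2 := hcard j
        have h3 := hself j
        split_ifs with h4
        · have := pred_card_le_card_erase (s := P j) (a := a)
          omega
        · omega)
    have hgs : g s = γ := hg1 s (mem_singleton_self s)
    have hgP : ∀ j, g j ∈ P j := by
      intro j
      by_cases hj : j = s
      · rw [hj, hgs]; exact hγ
      · have := hg2 j (by simpa using hj)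
        split_ifs at this with h4
        · exact mem_of_mem_erase this
        · exact this
    have hga : ∀ j, z j = z (s + 1) → g j ≠ a := by
      intro j hzj
      by_cases hj : j = s
      · rw [hj, hgs]; exact haγ.symm
      · have := hg2 j (by simpa using hj)
        rw [if_pos hzj] at this
        exact ne_of_mem_erase this
    have hap1 : a ≠ p (s + 1) := fun h => hp (s + 1) (h ▸ ha)
    obtain ⟨C, X, E, hC, hC1, hX0, hE0, hXn, hEn, hall⟩ := reach (fun i => p (s + (i : ℕ)))
      (fun i => g (s + (i : ℕ)))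
      (by
        intro h
        have h' := hgP (s + ((1 : ℕ) : ZMod n))
        rw [h] at h'
        exact hp _ h')
      (by simpa [hgs] using hγp) a (by simpa using hap) (by simpa [hgs] using haγ)
      (by simpa using hap1) (by simpa using (hga (s + 1) rfl).symm) n (by omega) a (p (s + 1))
      (by simpa [hgs] using haγ) (by simpa [hgs] using hγp.symm) (Ne.symm hap1)
    have hCn : C n = C 0 := by
      rw [hC n (by omega), hC 0 (by omega)]
      simp
    have hXn' : X n = X 0 := hXn.trans hX0.symm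
    have hEn' : E n = E 0 := by
      rw [hEn, hE0]; simp
    have hsol := to_cyc hn s p C X E hCn hXn' hEn' hall
    have hval : ∀ j : ZMod n, (j - s).val = 1 → j = s + 1 := by
      intro j hj
      have h1 := ZMod.natCast_zmod_val (j - s)
      rw [hj] at h1
      rw [Nat.cast_one] at h1
      rw [h1]; ring
    have hCg : ∀ j : ZMod n, j ≠ s + 1 → C (j - s).val = g j := by
      intro j hj
      rw [hC _ (fun h => hj (hval j h))]
      simp
    have hCs : C (s + 1 - s).val = g (s + 1) ∨ C (s + 1 - s).val = a := by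
      have h1 : (s + 1 - s).val = 1 := by
        rw [add_sub_cancel_left, ZMod.val_one]
      rw [h1]
      simpa using hC1
    refine ⟨_, _, _, ?_, ?_, hsol⟩
    · intro i
      by_cases hi : i = s + 1
      · subst hi
        rcases hCs with h | h
        · simp only [h]; exact hgP _
        · simp only [h]; exact ha
      · simp only [hCg i hi]; exact hgP _
    · intro i j hij hz
      by_cases hi : i = s + 1
      · subst hi
        simp only [hCg j hij.symm]
        rcases hCs with h | h
        · rw [h]; exact hg3 _ _ hij hz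
        · rw [h]; exact (hga j hz.symm).symm
      · simp only [hCg i hi]
        by_cases hj : j = s + 1
        · subst hj
          rcases hCs with h | h
          · rw [h]; exact hg3 _ _ hij hz
          · rw [h]; exact hga i hz
        · rw [hCg j hj]; exact hg3 _ _ hij hz
  · push Not at hD
    -- structure of the degenerate case
    have hstr : ∀ s, p s ≠ p (s + 1) ∧ (P s).card = 2 ∧
        insert (p s) (P s) = insert (p (s + 1)) (P (s + 1)) := by
      intro s
      obtain ⟨γ, hγ, hγp⟩ := exists_mem_ne (hP2 s) (p (s + 1))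
      have h1 : ∀ a ∈ P (s + 1), a = p s ∨ a = γ := by
        intro a ha
        by_cases h : a = p s
        · exact Or.inl h
        · exact Or.inr (hD s γ a hγ hγp ha h)
      have h2 : P (s + 1) ⊆ {p s, γ} := by
        intro a ha
        simpa using h1 a ha
      have h3 : ({p s, γ} : Finset (Fin 5)).card ≤ 2 := card_le_two
      have h4 : P (s + 1) = {p s, γ} := eq_of_subset_of_card_le h2 (h3.trans (hP2 _))
      have h5 : p s ∈ P (s + 1) := by rw [h4]; simp
      have h6 : p s ≠ p (s + 1) := fun h => hp (s + 1) (h ▸ h5)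
      have h7 : γ ∈ P (s + 1) := by rw [h4]; simp
      have h8 : γ ≠ p s := fun h => hp s (h ▸ hγ)
      have h9 : P s ⊆ {p (s + 1), γ} := by
        intro b hb
        by_cases h : b = p (s + 1)
        · simp [h]
        · have := hD s b γ hb h h7 h8
          simp [this]
      have h10' : ({p (s + 1), γ} : Finset (Fin 5)).card ≤ 2 := card_le_two
      have h11 : P s = {p (s + 1), γ} := eq_of_subset_of_card_le h9 (h10'.trans (hP2 _))
      refine ⟨h6, ?_, ?_⟩
      · rw [h11]; exact card_pair hγp.symm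
      · rw [h4, h11]
        ext x
        simp only [mem_insert, mem_singleton]
        tauto
    have hZ : ∀ i : ℕ, insert (p (i : ZMod n)) (P (i : ZMod n)) = insert (p 0) (P 0) := by
      intro i
      induction i with
      | zero => simp
      | succ k ih =>
        have := (hstr (k : ZMod n)).2.2
        push_cast
        rw [← this, ih]
    have hZ' : ∀ i : ZMod n, insert (p i) (P i) = insert (p 0) (P 0) := by
      intro i
      have := hZ i.val
      rwa [ZMod.natCast_zmod_val] at this
    have hcZ : (insert (p 0) (P 0)).card = 3 := by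
      rw [card_insert_of_notMem (hp 0), (hstr 0).2.1]
    obtain ⟨u, v, huv, hu, hv⟩ : ∃ u v, u ≠ v ∧ u ∉ insert (p 0) (P 0) ∧
        v ∉ insert (p 0) (P 0) := by
      have h1 : (insert (p 0) (P 0))ᶜ.card = 2 := by
        rw [card_compl, hcZ]; rfl
      obtain ⟨u, v, huv, h2⟩ := card_eq_two.1 h1
      refine ⟨u, v, huv, ?_, ?_⟩
      · rw [← mem_compl, h2]; simp
      · rw [← mem_compl, h2]; simp
    have hpZ : ∀ i : ZMod n, p i ∈ insert (p 0) (P 0) := by
      intro i; rw [← hZ' i]; exact mem_insert_self _ _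
    have hPZ : ∀ (i : ZMod n), ∀ a ∈ P i, a ∈ insert (p 0) (P 0) := by
      intro i a ha; rw [← hZ' i]; exact mem_insert_of_mem ha
    have hup : ∀ i, u ≠ p i := fun i h => hu (h ▸ hpZ i)
    have hvp : ∀ i, v ≠ p i := fun i h => hv (h ▸ hpZ i)
    have huP : ∀ i, ∀ a ∈ P i, u ≠ a := fun i a ha h => hu (h ▸ hPZ i a ha)
    have hvP : ∀ i, ∀ a ∈ P i, v ≠ a := fun i a ha h => hv (h ▸ hPZ i a ha)
    have hsib : ∀ i j, i ≠ j → z i ≠ z j := by
      intro i j hij hz
      have h1 := hcard i
      rw [(hstr i).2.1] at h1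
      have h2 : ({i, j} : Finset (ZMod n)) ⊆ univ.filter (fun k => z k = z i) := by
        intro k hk
        rw [mem_insert, mem_singleton] at hk
        rcases hk with rfl | rfl
        · simp
        · simp [hz]
      have h3 := card_le_card h2
      rw [card_pair hij] at h3
      omega
    -- stub colours
    have hC : ∀ i : ZMod n, ∃ a ∈ P (i + 1), a ≠ p i := fun i => exists_mem_ne (hP2 _) _
    choose D hDP hDp using hC
    let xx : ℕ → Fin 5 := fun i => if i % 2 = 1 then u else v
    have hxx : ∀ i, xx i = u ∨ xx i = v := by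
      intro i; simp only [xx]; split_ifs <;> simp
    have hxxp : ∀ i j, xx i ≠ p j := by
      intro i j; rcases hxx i with h | h
      · rw [h]; exact hup j
      · rw [h]; exact hvp j
    have hxxP : ∀ i j, ∀ a ∈ P j, xx i ≠ a := by
      intro i j a ha; rcases hxx i with h | h
      · rw [h]; exact huP j a ha
      · rw [h]; exact hvP j a ha
    have hxxs : ∀ i, xx i ≠ xx (i + 1) := by
      intro i
      simp only [xx]
      rcases Nat.mod_two_eq_zero_or_one i with h | h
      · rw [if_neg (by omega), if_pos (by omega)]; exact huv.symm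
      · rw [if_pos (by omega), if_neg (by omega)]; exact huv
    have hpp : ∀ i : ZMod n, p i ≠ p (i + 1) := fun i => (hstr i).1
    have hcastsub : ∀ i : ℕ, 1 ≤ i → (((i - 1 : ℕ) : ZMod n)) + 1 = (i : ZMod n) := by
      intro i hi
      rw [← Nat.cast_one (R := ZMod n), ← Nat.cast_add]
      congr 1
      omega
    by_cases hpar : n % 2 = 0
    · refine ⟨_, _, _, ?_, ?_, to_cyc hn 0 p (fun i => D ((i : ZMod n) - 1)) xx
        (fun i => p (i : ZMod n)) ?_ ?_ ?_ ?_⟩
      · intro i
        simp only [sub_zero, ZMod.natCast_zmod_val]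
        have := hDP (i - 1)
        rwa [sub_add_cancel] at this
      · intro i j hij hz
        exact absurd hz (hsib i j hij)
      · simp
      · simp only [xx]
        rw [if_neg (by omega), if_neg (by omega)]
      · simp
      · intro i hi
        simp only [zero_add, Nat.cast_add, Nat.cast_one, add_sub_cancel_right]
        have h1 : D ((i : ZMod n) - 1) ∈ P (i : ZMod n) := by
          have := hDP ((i : ZMod n) - 1)
          rwa [sub_add_cancel] at this
        refine ⟨⟨hxxp _ _, hxxP _ _ _ h1, hxxp _ _, ?_⟩, hxxs i, (hxxp _ _).symm, hpp _,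
          (hDp _).symm⟩
        intro h
        rw [h] at h1
        exact hp _ h1
    · obtain ⟨a0, b0, hab, hab'⟩ := card_eq_two.1 (hstr 0).2.1
      have ha0 : a0 ∈ P 0 := by rw [hab']; simp
      have hb0 : b0 ∈ P 0 := by rw [hab']; simp
      have hap0 : a0 ≠ p 0 := fun h => hp 0 (h ▸ ha0)
      refine ⟨_, _, _, ?_, ?_, to_cyc hn 0 p
        (fun i => if i = 0 ∨ i = n then b0 else D ((i : ZMod n) - 1))
        (fun i => if i = 0 ∨ i = n then a0 else xx i)
        (fun i => if i = 0 ∨ i = n then v else if i = n - 1 then u else p (i : ZMod n))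
        ?_ ?_ ?_ ?_⟩
      · intro i
        simp only [sub_zero]
        by_cases hi : i.val = 0 ∨ i.val = n
        · rw [if_pos hi]
          rcases hi with hi | hi
          · have : i = 0 := by rwa [ZMod.val_eq_zero] at hi
            rw [this]; exact hb0
          · exact absurd (ZMod.val_lt i) (by omega)
        · rw [if_neg hi, ZMod.natCast_zmod_val]
          have := hDP (i - 1)
          rwa [sub_add_cancel] at this
      · intro i j hij hz
        exact absurd hz (hsib i j hij)
      · simp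
      · simp
      · simp
      · intro i hi
        simp only [zero_add]
        rcases Nat.eq_zero_or_pos i with h0 | h0
        · subst h0
          have e1 : ¬ ((0 : ℕ) + 1 = 0 ∨ 0 + 1 = n) := by omega
          have e2 : ¬ ((0 : ℕ) + 1 = n - 1) := by omega
          rw [if_pos (Or.inl rfl), if_pos (Or.inl rfl), if_pos (Or.inl rfl), if_neg e1, if_neg e1,
            if_neg e1, if_neg e2]
          refine ⟨⟨by simpa using hap0, hab, (hvP 0 a0 ha0).symm, (hvP 0 b0 hb0).symm⟩, ?_, ?_, ?_,
            ?_⟩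
          · exact (hxxP _ _ _ ha0).symm
          · have hx1 : xx (0 + 1) = u := by simp [xx]
            rw [hx1]
            exact huv.symm
          · exact hvp _
          · have := hDP (((0 + 1 : ℕ) : ZMod n) - 1)
            exact hvP _ _ this
        · have e0 : ¬ (i = 0 ∨ i = n) := by omega
          have h1 : D ((i : ZMod n) - 1) ∈ P (i : ZMod n) := by
            have := hDP ((i : ZMod n) - 1)
            rwa [sub_add_cancel] at this
          rw [if_neg e0, if_neg e0, if_neg e0]
          by_cases hin : i = n - 1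
          · have e1 : i + 1 = 0 ∨ i + 1 = n := by omega
            rw [if_pos hin, if_pos e1, if_pos e1, if_pos e1]
            have hxi : xx i = v := by
              simp only [xx]
              rw [if_neg (by omega)]
            rw [hxi]
            exact ⟨⟨hvp _, hvP _ _ h1, huv.symm, (huP _ _ h1).symm⟩, hvP _ _ ha0, huP _ _ ha0,
              huv, huP _ _ hb0⟩
          · have e1 : ¬ (i + 1 = 0 ∨ i + 1 = n) := by omega
            rw [if_neg hin, if_neg e1, if_neg e1, if_neg e1]
            have h2 : ((i + 1 : ℕ) : ZMod n) - 1 = (i : ZMod n) := by push_cast; ring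
            refine ⟨⟨hxxp _ _, hxxP _ _ _ h1, hxxp _ _, ?_⟩, hxxs i, (hxxp _ _).symm, ?_, ?_⟩
            · intro h
              rw [h] at h1
              exact hp _ h1
            · by_cases e3 : i + 1 = n - 1
              · rw [if_pos e3]; exact (hup _).symm
              · rw [if_neg e3]
                push_cast
                exact hpp _
            · rw [h2]; exact (hDp _).symm

end MP_db9399_co.Sub3
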