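import Mathlib
import Pool.Agent.Work.MP_db9399_co_helper38.Cycle

/-! Partial total colourings of a graph with maximum degree at most three. -/

namespace MP_db9399_co.Sub3

open Finset

variable {V : Type*} [DecidableEq V] {κ : Type*}

/-- `T` is a total colouring (vertex colours on the diagonal) of `G[W]`, avoiding at `u` the edge
colours in `F u`, which agrees with `T0` on `A`. -/
structure Good (G : SimpleGraph V) (A : Finset V) (T0 : V → V → κ) (W : Finset V)
    (F : V → Finset κ) (T : V → V → κ) : Prop where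
  symm : ∀ u ∈ W, ∀ v ∈ W, G.Adj u v → T u v = T v u
  inj : ∀ u ∈ W, ∀ v ∈ W, ∀ w ∈ W, (v = u ∨ G.Adj u v) → (w = u ∨ G.Adj u w) → v ≠ w →
    T u v ≠ T u w
  vert : ∀ u ∈ W, ∀ v ∈ W, G.Adj u v → T u u ≠ T v v
  forb : ∀ u ∈ W, ∀ v ∈ W, (v = u ∨ G.Adj u v) → T u v ∉ F u
  ext : ∀ u ∈ A, ∀ v ∈ A, (v = u ∨ G.Adj u v) → T u v = T0 u v

theorem glue {G : SimpleGraph V} {A : Finset V} {T0 : V → V → κ} {W0 : Finset V}
    {F : V → Finset κ} {T : V → V → κ} (hT : Good G A T0 W0 F T) (K : Finset V)
    (hKA : ∀ u ∈ K, u ∉ A) (new : V → V → κ)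
    (h1 : ∀ u ∈ K, ∀ w ∈ W0 ∪ K, G.Adj u w → new u w = new w u)
    (h2 : ∀ u ∈ K, ∀ v ∈ W0 ∪ K, ∀ w ∈ W0 ∪ K, (v = u ∨ G.Adj u v) → (w = u ∨ G.Adj u w) →
      v ≠ w → new u v ≠ new u w)
    (h3 : ∀ z ∈ W0, ∀ u ∈ K, ∀ v ∈ K, G.Adj z u → G.Adj z v → u ≠ v → new z u ≠ new z v)
    (h3' : ∀ z ∈ W0, ∀ u ∈ K, ∀ v ∈ W0, G.Adj z u → (v = z ∨ G.Adj z v) → new z u ≠ T z v)
    (h3'' : ∀ z ∈ W0, ∀ u ∈ K, G.Adj z u → new z u ∉ F z)
    (h4 : ∀ u ∈ K, ∀ v ∈ K, G.Adj u v → new u u ≠ new v v)
    (h4' : ∀ u ∈ K, ∀ v ∈ W0, G.Adj u v → new u u ≠ T v v)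
    (h5 : ∀ u ∈ K, F u = ∅) :
    Good G A T0 (W0 ∪ K) F (fun u w => if u ∈ K ∨ w ∈ K then new u w else T u w) := by
  have hW : ∀ u, u ∈ W0 ∪ K → u ∉ K → u ∈ W0 := by
    intro u hu hk
    rw [mem_union] at hu
    exact hu.resolve_right hk
  constructor
  · intro u hu v hv huv
    by_cases hk : u ∈ K
    · simp only [hk, true_or, or_true, if_true]
      exact h1 u hk v hv huv
    · by_cases hk' : v ∈ K
      · simp only [hk', true_or, or_true, if_true]
        exact (h1 v hk' u hu huv.symm).symm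
      · simp only [hk, hk', or_self, if_false]
        exact hT.symm u (hW u hu hk) v (hW v hv hk') huv
  · intro u hu v hv w hw huv huw hne
    by_cases hk : u ∈ K
    · simp only [hk, true_or, if_true]
      exact h2 u hk v hv w hw huv huw hne
    · have hu0 := hW u hu hk
      by_cases hv' : v ∈ K
      · have huv' : G.Adj u v := by
          rcases huv with h | h
          · exact absurd (h ▸ hv') hk
          · exact h
        by_cases hw' : w ∈ K
        · have huw' : G.Adj u w := by
            rcases huw with h | h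
            · exact absurd (h ▸ hw') hk
            · exact h
          simp only [hv', hw', or_true, if_true]
          exact h3 u hu0 v hv' w hw' huv' huw' hne
        · simp only [hv', hw', hk, or_true, or_self, if_true, if_false]
          exact h3' u hu0 v hv' w (hW w hw hw') huv' huw
      · by_cases hw' : w ∈ K
        · have huw' : G.Adj u w := by
            rcases huw with h | h
            · exact absurd (h ▸ hw') hk
            · exact h
          simp only [hv', hw', hk, or_true, or_self, if_true, if_false]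
          exact (h3' u hu0 w hw' v (hW v hv hv') huw' huv).symm
        · simp only [hv', hw', hk, or_self, if_false]
          exact hT.inj u hu0 v (hW v hv hv') w (hW w hw hw') huv huw hne
  · intro u hu v hv huv
    by_cases hk : u ∈ K
    · by_cases hk' : v ∈ K
      · simp only [hk, hk', true_or, if_true]
        exact h4 u hk v hk' huv
      · simp only [hk, hk', or_self, if_true, if_false]
        exact h4' u hk v (hW v hv hk') huv
    · by_cases hk' : v ∈ K
      · simp only [hk, hk', or_self, if_true, if_false]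
        exact (h4' v hk' u (hW u hu hk) huv.symm).symm
      · simp only [hk, hk', or_self, if_false]
        exact hT.vert u (hW u hu hk) v (hW v hv hk') huv
  · intro u hu v hv huv
    by_cases hk : u ∈ K
    · rw [h5 u hk]; simp
    · by_cases hk' : v ∈ K
      · have huv' : G.Adj u v := by
          rcases huv with h | h
          · exact absurd (h ▸ hk') hk
          · exact h
        simp only [hk', or_true, if_true]
        exact h3'' u (hW u hu hk) v hk' huv'
      · simp only [hk, hk', or_self, if_false]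
        exact hT.forb u (hW u hu hk) v (hW v hv hk') huv
  · intro u hu v hv huv
    have hk : u ∉ K := fun h => hKA u h hu
    have hk' : v ∉ K := fun h => hKA v h hv
    simp only [hk, hk', or_self, if_false]
    exact hT.ext u hu v hv huv

/-- Adding one vertex. -/
theorem extend1 {G : SimpleGraph V} {A : Finset V} {T0 : V → V → κ} {W0 : Finset V}
    {F : V → Finset κ} {T : V → V → κ} (hT : Good G A T0 W0 F T) (v : V)
    (hvW : v ∉ W0) (hvA : v ∉ A) (hF : F v = ∅) (X : κ) (f : V → κ)
    (h1 : ∀ w ∈ W0, G.Adj v w → f w ≠ X)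
    (h2 : ∀ w ∈ W0, ∀ w' ∈ W0, G.Adj v w → G.Adj v w' → w ≠ w' → f w ≠ f w')
    (h3 : ∀ w ∈ W0, G.Adj v w → ∀ w' ∈ W0, (w' = w ∨ G.Adj w w') → f w ≠ T w w')
    (h4 : ∀ w ∈ W0, G.Adj v w → f w ∉ F w)
    (h5 : ∀ w ∈ W0, G.Adj v w → X ≠ T w w) :
    ∃ T', Good G A T0 (insert v W0) F T' := by
  have hins : insert v W0 = W0 ∪ {v} := by
    ext x; simp
  rw [hins]
  have hne : ∀ w ∈ W0, w ≠ v := fun w hw h => hvW (h ▸ hw)
  refine ⟨_, glue hT {v} ?_ (fun a b => if a = v then (if b = v then X else f b) else f a)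
    ?_ ?_ ?_ ?_ ?_ ?_ ?_ ?_⟩
  · intro u hu; rw [mem_singleton] at hu; rw [hu]; exact hvA
  · intro u hu w hw huw
    rw [mem_singleton] at hu; subst hu
    simp only [if_true]
  · intro u hu w hw w' hw' huw huw' hww
    rw [mem_singleton] at hu; subst hu
    rw [mem_union, mem_singleton] at hw hw'
    simp only [if_true]
    by_cases hwu : w = u
    · have hwu' : w' ≠ u := fun h => hww (hwu.trans h.symm)
      rw [if_pos hwu, if_neg hwu']
      exact (h1 w' (hw'.resolve_right hwu') (huw'.resolve_left hwu')).symm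
    · rw [if_neg hwu]
      by_cases hwu' : w' = u
      · rw [if_pos hwu']
        exact h1 w (hw.resolve_right hwu) (huw.resolve_left hwu)
      · rw [if_neg hwu']
        exact h2 w (hw.resolve_right hwu) w' (hw'.resolve_right hwu') (huw.resolve_left hwu)
          (huw'.resolve_left hwu') hww
  · intro z _ u hu w hw _ _ hne'
    rw [mem_singleton] at hu hw
    exact absurd (hu.trans hw.symm) hne'
  · intro z hz u hu w hw hzu hzw
    rw [mem_singleton] at hu; subst hu
    rw [if_neg (hne z hz)]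
    exact h3 z hz hzu.symm w hw hzw
  · intro z hz u hu hzu
    rw [mem_singleton] at hu; subst hu
    rw [if_neg (hne z hz)]
    exact h4 z hz hzu.symm
  · intro u hu w hw huw
    rw [mem_singleton] at hu hw
    exact absurd (hu.trans hw.symm) huw.ne
  · intro u hu w hw huw
    rw [mem_singleton] at hu; subst hu
    simp only [if_true]
    exact h5 w hw huw
  · intro u hu
    rw [mem_singleton] at hu; subst hu
    exact hF

/-- Available edge colours at `w`. -/
def Av [Fintype κ] [DecidableEq κ] (G : SimpleGraph V) [DecidableRel G.Adj] (W : Finset V) (F : V → Finset κ)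
    (T : V → V → κ) (w : V) : Finset κ :=
  univ.filter (fun c => c ∉ F w ∧ ∀ u ∈ W, (u = w ∨ G.Adj w u) → c ≠ T w u)

theorem mem_Av [Fintype κ] [DecidableEq κ] {G : SimpleGraph V} [DecidableRel G.Adj] {W : Finset V} {F : V → Finset κ}
    {T : V → V → κ} {w : V} {c : κ} :
    c ∈ Av G W F T w ↔ c ∉ F w ∧ ∀ u ∈ W, (u = w ∨ G.Adj w u) → c ≠ T w u := by
  simp [Av]

theorem card_Av [Fintype κ] [DecidableEq κ] (G : SimpleGraph V) [DecidableRel G.Adj] (W : Finset V) (F : V → Finset κ)
    (T : V → V → κ) (w : V) :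
    Fintype.card κ ≤ (Av G W F T w).card + (F w).card + (W.filter (G.Adj w)).card + 1 := by
  have h1 : (univ : Finset κ) ⊆
      ((Av G W F T w ∪ F w) ∪ (W.filter (G.Adj w)).image (T w)) ∪ {T w w} := by
    intro c _
    by_contra hc
    simp only [mem_union, mem_image, mem_filter, mem_singleton, not_or, not_exists, not_and] at hc
    obtain ⟨⟨⟨h1, h2⟩, h3⟩, h4⟩ := hc
    apply h1
    rw [mem_Av]
    refine ⟨h2, ?_⟩
    rintro u hu (rfl | hwu)
    · exact h4
    · intro h
      exact h3 u ⟨hu, hwu⟩ h.symm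
  have h2 := card_le_card h1
  rw [card_univ] at h2
  have h3 := card_union_le ((Av G W F T w ∪ F w) ∪ (W.filter (G.Adj w)).image (T w)) {T w w}
  have h4 := card_union_le (Av G W F T w ∪ F w) ((W.filter (G.Adj w)).image (T w))
  have h5 := card_union_le (Av G W F T w) (F w)
  have h6 := card_image_le (s := W.filter (G.Adj w)) (f := T w)
  rw [card_singleton] at h3
  omega

/-- Adding a vertex with at most two neighbours among the coloured vertices. -/
theorem addLow {G : SimpleGraph V} [DecidableRel G.Adj] {A : Finset V} {T0 : V → V → Fin 5}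
    {W0 : Finset V} {F : V → Finset (Fin 5)} {v : V} (hv : v ∉ W0) (hvA : v ∉ A) (hF : F v = ∅)
    (hroom : ∀ w ∈ insert v W0, (F w).card + ((insert v W0).filter (G.Adj w)).card ≤ 3)
    (hdeg : (W0.filter (G.Adj v)).card ≤ 2) (hE : ∃ T, Good G A T0 W0 F T) :
    ∃ T, Good G A T0 (insert v W0) F T := by
  obtain ⟨T, hT⟩ := hE
  have hav : ∀ w ∈ W0, G.Adj v w → 2 ≤ (Av G W0 F T w).card := by
    intro w hw hvw
    have h1 := hroom w (mem_insert_of_mem hw)
    rw [filter_insert, if_pos hvw.symm, card_insert_of_notMem (by simp [hv])] at h1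
    have h2 := card_Av G W0 F T w
    rw [Fintype.card_fin] at h2
    omega
  rcases (W0.filter (G.Adj v)).eq_empty_or_nonempty with hN | ⟨w1, hw1⟩
  · have hno : ∀ w ∈ W0, ¬ G.Adj v w := by
      intro w hw hvw
      have : w ∈ W0.filter (G.Adj v) := by simp [hw, hvw]
      rw [hN] at this
      simp at this
    exact extend1 hT v hv hvA hF 0 (fun _ => 0) (fun w hw h => absurd h (hno w hw))
      (fun w hw _ _ h => absurd h (hno w hw)) (fun w hw h => absurd h (hno w hw))
      (fun w hw h => absurd h (hno w hw)) (fun w hw h => absurd h (hno w hw))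
  · obtain ⟨w2, hw2, hN⟩ : ∃ w2 ∈ W0.filter (G.Adj v), ∀ w ∈ W0.filter (G.Adj v),
        w = w1 ∨ w = w2 := by
      rcases ((W0.filter (G.Adj v)).erase w1).eq_empty_or_nonempty with h | ⟨w2, hw2⟩
      · refine ⟨w1, hw1, fun w hw => ?_⟩
        by_contra hne
        have : w ∈ (W0.filter (G.Adj v)).erase w1 := mem_erase.2 ⟨fun h => hne (Or.inl h), hw⟩
        rw [h] at this
        simp at this
      · refine ⟨w2, mem_of_mem_erase hw2, fun w hw => ?_⟩
        by_contra hne
        simp only [not_or] at hne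
        have h1 : {w, w2} ⊆ (W0.filter (G.Adj v)).erase w1 := by
          intro x hx
          rw [mem_insert, mem_singleton] at hx
          rcases hx with rfl | rfl
          · exact mem_erase.2 ⟨hne.1, hw⟩
          · exact hw2
        have h2 := card_le_card h1
        rw [card_pair hne.2, card_erase_of_mem hw1] at h2
        omega
    rw [mem_filter] at hw1 hw2
    obtain ⟨f1, hf1, -⟩ := exists_mem_ne (hav w1 hw1.1 hw1.2) 0
    obtain ⟨f2, hf2, hf21⟩ := exists_mem_ne (hav w2 hw2.1 hw2.2) f1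
    obtain ⟨X, hX1, hX2, hX3, hX4⟩ := exists_ne4 f1 f2 (T w1 w1) (T w2 w2)
    rw [mem_Av] at hf1 hf2
    have hcase : ∀ w ∈ W0, G.Adj v w → w = w1 ∨ w = w2 := fun w hw h =>
      hN w (by simp [hw, h])
    refine extend1 hT v hv hvA hF X (fun w => if w = w1 then f1 else f2) ?_ ?_ ?_ ?_ ?_
    · intro w _ _
      split_ifs
      · exact hX1.symm
      · exact hX2.symm
    · intro w hw w' hw' h h' hne
      rcases hcase w hw h with h1 | h1 <;> rcases hcase w' hw' h' with h1' | h1'
      · exact absurd (h1.trans h1'.symm) hne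
      · have : w' ≠ w1 := fun h2 => hne (h1.trans h2.symm)
        rw [if_pos h1, if_neg this]; exact hf21.symm
      · have : w ≠ w1 := fun h2 => hne (h2.trans h1'.symm)
        rw [if_pos h1', if_neg this]; exact hf21
      · exact absurd (h1.trans h1'.symm) hne
    · intro w hw h w' hw' hww'
      split_ifs with h1
      · subst h1; exact hf1.2 w' hw' hww'
      · have h2 := (hcase w hw h).resolve_left h1
        subst h2; exact hf2.2 w' hw' hww'
    · intro w hw h
      split_ifs with h1
      · subst h1; exact hf1.1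
      · have h2 := (hcase w hw h).resolve_left h1
        subst h2; exact hf2.1
    · intro w hw h
      rcases hcase w hw h with rfl | rfl
      · exact hX3
      · exact hX4

/-- Adding the apex of a triangle on an `A`-edge with reserved stub colours. -/
theorem addApex {G : SimpleGraph V} [DecidableRel G.Adj] {A : Finset V} {T0 : V → V → Fin 5}
    {W0 : Finset V} {F : V → Finset (Fin 5)} {y a b y' : V} (hAW : A ⊆ W0) (hy : y ∉ W0)
    (hyA : y ∉ A) (hFy : F y = ∅) (ha : a ∈ A) (hb : b ∈ A) (hab : G.Adj a b) (hya : G.Adj y a)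
    (hyb : G.Adj y b) (hy' : y' ∈ W0) (hy'a : y' ≠ a)
    (hy'b : y' ≠ b) (hN : ∀ w ∈ W0, G.Adj y w → w = a ∨ w = b ∨ w = y') (hFa : F a = ∅)
    (hFb : F b = ∅) (hda : (W0.filter (G.Adj a)).card ≤ 2)
    (hroom : (F y').card + (W0.filter (G.Adj y')).card ≤ 2)
    (hE : ∃ T, Good G A T0 W0 (Function.update (Function.update F a {T0 b b}) b {T0 a a}) T) :
    ∃ T, Good G A T0 (insert y W0) F T := by
  obtain ⟨T, hT⟩ := hE
  have hne : a ≠ b := hab.ne
  have hT' : Good G A T0 W0 F T := by
    refine ⟨hT.symm, hT.inj, hT.vert, ?_, hT.ext⟩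
    intro u hu v hv huv h
    apply hT.forb u hu v hv huv
    by_cases h1 : u = b
    · subst h1; rw [hFb] at h; simp at h
    · rw [Function.update_of_ne h1]
      by_cases h2 : u = a
      · subst h2; rw [hFa] at h; simp at h
      · rw [Function.update_of_ne h2]; exact h
  have haW := hAW ha
  have hbW := hAW hb
  have hα : T a a = T0 a a := hT.ext a ha a ha (Or.inl rfl)
  have hβ : T b b = T0 b b := hT.ext b hb b hb (Or.inl rfl)
  have hαβ : T a a ≠ T b b := hT.vert a haW b hbW hab
  have hFa' : ∀ w ∈ W0, (w = a ∨ G.Adj a w) → T b b ≠ T a w := by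
    intro w hw h h'
    have := hT.forb a haW w hw h
    rw [Function.update_of_ne hne, Function.update_self, mem_singleton] at this
    exact this (h'.symm.trans hβ)
  have hFb' : ∀ w ∈ W0, (w = b ∨ G.Adj b w) → T a a ≠ T b w := by
    intro w hw h h'
    have := hT.forb b hbW w hw h
    rw [Function.update_self, mem_singleton] at this
    exact this (h'.symm.trans hα)
  have hE2 : 2 ≤ (Av G W0 F T y').card := by
    have := card_Av G W0 F T y'
    rw [Fintype.card_fin] at this
    omega
  obtain ⟨τ, hτ⟩ : ∃ τ, ∀ w ∈ W0, G.Adj a w → w ≠ b → T a w = τ := by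
    have hb' : b ∈ W0.filter (G.Adj a) := by simp [hbW, hab]
    rcases ((W0.filter (G.Adj a)).erase b).eq_empty_or_nonempty with h | ⟨w0, hw0⟩
    · refine ⟨0, fun w hw h1 h2 => ?_⟩
      have : w ∈ (W0.filter (G.Adj a)).erase b := mem_erase.2 ⟨h2, by simp [hw, h1]⟩
      rw [h] at this
      simp at this
    · refine ⟨T a w0, fun w hw h1 h2 => ?_⟩
      by_cases h3 : w = w0
      · rw [h3]
      · exfalso
        have h4 : {w, w0} ⊆ (W0.filter (G.Adj a)).erase b := by
          intro x hx
          rw [mem_insert, mem_singleton] at hx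
          rcases hx with rfl | rfl
          · exact mem_erase.2 ⟨h2, by simp [hw, h1]⟩
          · exact hw0
        have h5 := card_le_card h4
        rw [card_pair h3, card_erase_of_mem hb'] at h5
        omega
  -- it suffices to choose the four colours
  have key : ∀ X ca cb e : Fin 5, X ≠ ca → X ≠ cb → X ≠ e → ca ≠ cb → ca ≠ e → cb ≠ e →
      (∀ w ∈ W0, (w = a ∨ G.Adj a w) → ca ≠ T a w) → (∀ w ∈ W0, (w = b ∨ G.Adj b w) → cb ≠ T b w) →
      e ∈ Av G W0 F T y' → X ≠ T a a → X ≠ T b b → X ≠ T y' y' →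
      ∃ T, Good G A T0 (insert y W0) F T := by
    intro X ca cb e h1 h2 h3 h4 h5 h6 h7 h8 h9 h10 h11 h12
    rw [mem_Av] at h9
    refine extend1 hT' y hy hyA hFy X (fun w => if w = a then ca else if w = b then cb else e)
      ?_ ?_ ?_ ?_ ?_
    · intro w _ _
      split_ifs
      · exact h1.symm
      · exact h2.symm
      · exact h3.symm
    · intro w hw w' hw' h h' hww
      rcases hN w hw h with rfl | rfl | rfl <;> rcases hN w' hw' h' with rfl | rfl | rfl
      · exact absurd rfl hww
      · simpa [hne.symm] using h4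
      · simpa [hy'a, hy'b] using h5
      · simpa [hne.symm] using h4.symm
      · exact absurd rfl hww
      · simpa [hy'a, hy'b, hne.symm] using h6
      · simpa [hy'a, hy'b] using h5.symm
      · simpa [hy'a, hy'b, hne.symm] using h6.symm
      · exact absurd rfl hww
    · intro w hw h w' hw' hww
      rcases hN w hw h with rfl | rfl | rfl
      · simpa using h7 w' hw' hww
      · simpa [hne.symm] using h8 w' hw' hww
      · simpa [hy'a, hy'b] using h9.2 w' hw' hww
    · intro w hw h
      rcases hN w hw h with rfl | rfl | rfl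
      · rw [hFa]; simp
      · rw [hFb]; simp
      · simpa [hy'a, hy'b] using h9.1
    · intro w hw h
      rcases hN w hw h with rfl | rfl | rfl
      · exact h10
      · exact h11
      · exact h12
  by_cases hEc : ∃ e ∈ Av G W0 F T y', e ≠ T a a ∧ e ≠ T b b
  · obtain ⟨e, he, hea, heb⟩ := hEc
    obtain ⟨X, hX1, hX2, hX3, hX4⟩ := exists_ne4 (T a a) (T b b) e (T y' y')
    exact key X (T b b) (T a a) e hX2 hX1 hX3 hαβ.symm heb.symm hea.symm hFa' hFb' he hX1 hX2 hX4
  · push Not at hEc
    have hβE : T b b ∈ Av G W0 F T y' := by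
      obtain ⟨e, he, hea⟩ := exists_mem_ne hE2 (T a a)
      have := hEc e he hea
      rwa [this] at he
    obtain ⟨ca, hc1, hc2, hc3, hc4⟩ := exists_ne4 (T a a) (T b b) (T a b) τ
    obtain ⟨X, hX1, hX2, hX3, hX4⟩ := exists_ne4 (T a a) (T b b) ca (T y' y')
    refine key X ca (T a a) (T b b) hX3 hX1 hX2 hc1 hc2 hαβ ?_ hFb' hβE hX1 hX2 hX4
    rintro w hw (rfl | h)
    · exact hc1
    · by_cases hwb : w = b
      · rw [hwb]; exact hc3
      · rw [hτ w hw h hwb]; exact hc4

/-- Adding an induced cycle of vertices of degree three. -/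
theorem addCycle {G : SimpleGraph V} [DecidableRel G.Adj] {A : Finset V} {T0 : V → V → Fin 5}
    {W0 : Finset V} {F : V → Finset (Fin 5)} {n : ℕ} (hn : 3 ≤ n) [NeZero n] (v : ZMod n → V)
    (hinj : Function.Injective v) (z : ZMod n → V) (hz : ∀ i, z i ∈ W0)
    (hN : ∀ i, ∀ w ∈ W0 ∪ univ.image v, G.Adj (v i) w → w = v (i + 1) ∨ w = v (i - 1) ∨ w = z i)
    (hvW : ∀ i, v i ∉ W0) (hvA : ∀ i, v i ∉ A) (hF : ∀ i, F (v i) = ∅)
    (hroom : ∀ i, (F (z i)).card + (W0.filter (G.Adj (z i))).card +
      (univ.filter (fun j => z j = z i)).card ≤ 3)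
    (hE : ∃ T, Good G A T0 W0 F T) : ∃ T, Good G A T0 (W0 ∪ univ.image v) F T := by
  obtain ⟨T, hT⟩ := hE
  have : Fact (1 < n) := ⟨by omega⟩
  obtain ⟨c, x, e, hc1, hc2, hsol⟩ := cycle_lemma hn z (fun i => T (z i) (z i))
    (fun i => Av G W0 F T (z i))
    (by
      intro i h
      exact (mem_Av.1 h).2 (z i) (hz i) (Or.inl rfl) rfl)
    (by
      intro i
      have h1 := hroom i
      have h2 := card_Av G W0 F T (z i)
      rw [Fintype.card_fin] at h2
      omega)
  have hidx := Function.leftInverse_invFun hinj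
  set idx : V → ZMod n := Function.invFun v with hidxdef
  have h01 : (1 : ZMod n) ≠ 0 := one_ne_zero
  have h02 : (1 : ZMod n) + 1 ≠ 0 := by
    intro h
    have h1 := val_succ hn (1 : ZMod n)
    rw [ZMod.val_one] at h1
    rcases h1 with h1 | h1
    · rw [h, ZMod.val_zero] at h1; omega
    · omega
  have hs1 : ∀ i : ZMod n, v (i + 1) ≠ v i := by
    intro i h
    have := hinj h
    simp at this
  have hs2 : ∀ i : ZMod n, v (i - 1) ≠ v i := by
    intro i h
    have := hinj h
    apply h01
    have h' : i - 1 + 1 = i + 1 := by rw [this]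
    rw [sub_add_cancel] at h'
    simpa using h'.symm
  have hs3 : ∀ i : ZMod n, v (i - 1) ≠ v (i + 1) := by
    intro i h
    have h' := hinj h
    apply h02
    have h3 : i + 1 - (i - 1) = 0 := by rw [h']; ring
    have h4 : i + 1 - (i - 1) = 1 + 1 := by ring
    rw [← h4, h3]
  have hzK : ∀ i j, z i ≠ v j := fun i j h => hvW j (h ▸ hz i)
  have hmem : ∀ u, u ∈ univ.image v ↔ ∃ i, u = v i := by
    intro u
    rw [mem_image]
    constructor
    · rintro ⟨i, -, h⟩; exact ⟨i, h.symm⟩
    · rintro ⟨i, h⟩; exact ⟨i, mem_univ _, h.symm⟩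
  have hnotmem : ∀ w ∈ W0, w ∉ univ.image v := by
    intro w hw h
    obtain ⟨i, hi⟩ := (hmem w).1 h
    exact hvW i (hi ▸ hw)
  let new : V → V → Fin 5 := fun u w =>
    if u ∈ univ.image v then
      (if w = u then x (idx u) else if w = v (idx u + 1) then e (idx u)
        else if w = v (idx u - 1) then e (idx u - 1) else c (idx u))
    else c (idx w)
  have hnew1 : ∀ i, new (v i) (v i) = x i := by
    intro i
    simp only [new]
    rw [if_pos ((hmem _).2 ⟨i, rfl⟩), if_pos trivial, hidx i]
  have hnew2 : ∀ i, new (v i) (v (i + 1)) = e i := by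
    intro i
    simp only [new]
    rw [if_pos ((hmem _).2 ⟨i, rfl⟩), if_neg (hs1 i), hidx i, if_pos rfl]
  have hnew3 : ∀ i, new (v i) (v (i - 1)) = e (i - 1) := by
    intro i
    simp only [new]
    rw [if_pos ((hmem _).2 ⟨i, rfl⟩), if_neg (hs2 i), hidx i, if_neg (hs3 i), if_pos rfl]
  have hnew4 : ∀ i, new (v i) (z i) = c i := by
    intro i
    simp only [new]
    rw [if_pos ((hmem _).2 ⟨i, rfl⟩), if_neg (hzK i i), hidx i, if_neg (hzK i _), if_neg (hzK i _)]
  have hnew5 : ∀ w ∈ W0, ∀ i, new w (v i) = c i := by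
    intro w hw i
    simp only [new]
    rw [if_neg (hnotmem w hw), hidx i]
  have hzu : ∀ w ∈ W0, ∀ i, G.Adj (v i) w → w = z i := by
    intro w hw i h
    rcases hN i w (mem_union_left _ hw) h with h1 | h1 | h1
    · exact absurd hw (h1 ▸ hvW _)
    · exact absurd hw (h1 ▸ hvW _)
    · exact h1
  have hlnk' : ∀ i, Lnk (x (i - 1)) (e (i - 1)) (c i) (x i) (e i) := by
    intro i
    have := hsol.lnk (i - 1)
    rwa [sub_add_cancel] at this
  refine ⟨_, glue hT (univ.image v) ?_ new ?_ ?_ ?_ ?_ ?_ ?_ ?_ ?_⟩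
  · intro u hu
    obtain ⟨i, rfl⟩ := (hmem u).1 hu
    exact hvA i
  · intro u hu w hw huw
    obtain ⟨i, rfl⟩ := (hmem u).1 hu
    rcases hN i w hw huw with rfl | rfl | rfl
    · rw [hnew2]
      have := hnew3 (i + 1)
      rw [add_sub_cancel_right] at this
      exact this.symm
    · rw [hnew3]
      have := hnew2 (i - 1)
      rw [sub_add_cancel] at this
      exact this.symm
    · rw [hnew4, hnew5 _ (hz i)]
  · intro u hu w hw w' hw' huw huw' hne
    obtain ⟨i, rfl⟩ := (hmem u).1 hu
    have hloc := hsol.loc i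
    have hl := hlnk' i
    have hcase : ∀ w ∈ W0 ∪ univ.image v, (w = v i ∨ G.Adj (v i) w) →
        w = v i ∨ w = v (i + 1) ∨ w = v (i - 1) ∨ w = z i := by
      intro w hw h
      rcases h with h | h
      · exact Or.inl h
      · exact Or.inr (hN i w hw h)
    rcases hcase w hw huw with rfl | rfl | rfl | rfl <;>
      rcases hcase w' hw' huw' with h | h | h | h
    · exact absurd h.symm hne
    · rw [h, hnew1, hnew2]; exact hloc.2.2.1
    · rw [h, hnew1, hnew3]; exact hl.2.1.symm
    · rw [h, hnew1, hnew4]; exact hloc.2.1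
    · rw [h, hnew1, hnew2]; exact hloc.2.2.1.symm
    · exact absurd h.symm hne
    · rw [h, hnew2, hnew3]; exact hl.2.2.1.symm
    · rw [h, hnew2, hnew4]; exact hloc.2.2.2.symm
    · rw [h, hnew1, hnew3]; exact hl.2.1
    · rw [h, hnew2, hnew3]; exact hl.2.2.1
    · exact absurd h.symm hne
    · rw [h, hnew3, hnew4]; exact hl.2.2.2
    · rw [h, hnew1, hnew4]; exact hloc.2.1.symm
    · rw [h, hnew2, hnew4]; exact hloc.2.2.2
    · rw [h, hnew3, hnew4]; exact hl.2.2.2.symm
    · exact absurd h.symm hne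
  · intro w hw u hu u' hu' h h' hne
    obtain ⟨i, rfl⟩ := (hmem u).1 hu
    obtain ⟨j, rfl⟩ := (hmem u').1 hu'
    rw [hnew5 w hw, hnew5 w hw]
    have h1 := hzu w hw i h.symm
    have h2 := hzu w hw j h'.symm
    exact hc2 i j (fun h3 => hne (by rw [h3])) (h1.symm.trans h2)
  · intro w hw u hu w' hw' h hww
    obtain ⟨i, rfl⟩ := (hmem u).1 hu
    rw [hnew5 w hw]
    have h1 := hzu w hw i h.symm
    subst h1
    exact (mem_Av.1 (hc1 i)).2 w' hw' hww
  · intro w hw u hu h
    obtain ⟨i, rfl⟩ := (hmem u).1 hu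
    rw [hnew5 w hw]
    have h1 := hzu w hw i h.symm
    subst h1
    exact (mem_Av.1 (hc1 i)).1
  · intro u hu u' hu' h
    obtain ⟨i, rfl⟩ := (hmem u).1 hu
    obtain ⟨j, rfl⟩ := (hmem u').1 hu'
    rw [hnew1, hnew1]
    rcases hN i _ (mem_union_right _ hu') h with h1 | h1 | h1
    · have := hinj h1
      subst this
      exact (hsol.lnk i).1
    · have := hinj h1
      subst this
      exact (hlnk' i).1.symm
    · exact absurd h1.symm (hzK i j)
  · intro u hu w hw h
    obtain ⟨i, rfl⟩ := (hmem u).1 hu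
    rw [hnew1]
    have h1 := hzu w hw i h
    subst h1
    exact (hsol.loc i).1
  · intro u hu
    obtain ⟨i, rfl⟩ := (hmem u).1 hu
    exact hF i

/-- Peeling a connected piece `C` down to the root set `E`. -/
theorem peel_gen {G : SimpleGraph V} (P : Finset V → Prop) (W C E : Finset V) (hEC : E ⊆ C)
    (hconn : ∀ E', E ⊆ E' → E' ⊂ C → ∃ u ∈ E', ∃ v ∈ C \ E', G.Adj u v)
    (hadd : ∀ E', E ⊆ E' → E' ⊆ C → ∀ v ∈ C, v ∉ E' → (∃ u ∈ E', G.Adj u v) →
      P (W \ insert v E') → P (W \ E')) (hE : P (W \ C)) : P (W \ E) := by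
  have key : ∀ k E', (C \ E').card = k → E ⊆ E' → E' ⊆ C → P (W \ E') := by
    intro k
    induction k with
    | zero =>
      intro E' h h1 h2
      rw [card_eq_zero, sdiff_eq_empty_iff_subset] at h
      have : E' = C := subset_antisymm h2 h
      rw [this]; exact hE
    | succ k ih =>
      intro E' h h1 h2
      have hss : E' ⊂ C := by
        refine ⟨h2, fun h' => ?_⟩
        have : C \ E' = ∅ := sdiff_eq_empty_iff_subset.2 h'
        rw [this] at h
        simp at h
      obtain ⟨u, hu, v, hv, huv⟩ := hconn E' h1 hss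
      rw [mem_sdiff] at hv
      apply hadd E' h1 h2 v hv.1 hv.2 ⟨u, hu, huv⟩
      apply ih (insert v E') _ (h1.trans (subset_insert _ _)) (insert_subset hv.1 h2)
      have : C \ insert v E' = (C \ E').erase v := by
        ext w
        simp only [mem_sdiff, mem_insert, mem_erase, not_or]
        tauto
      rw [this, card_erase_of_mem (mem_sdiff.2 hv)]
      omega
  exact key _ E rfl (subset_refl _) hEC

theorem sdiff_insert_eq {W E : Finset V} {v : V} (hv : v ∈ W) (hvE : v ∉ E) :
    W \ E = insert v (W \ insert v E) := by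
  ext w
  simp only [mem_sdiff, mem_insert, not_or]
  constructor
  · rintro ⟨h5, h6⟩
    by_cases h7 : w = v
    · exact Or.inl h7
    · exact Or.inr ⟨h5, h7, h6⟩
  · rintro (rfl | ⟨h5, h6, h7⟩)
    · exact ⟨hv, hvE⟩
    · exact ⟨h5, h7⟩

theorem filter_card_le {G : SimpleGraph V} [DecidableRel G.Adj] {W W' : Finset V}
    (h : W' ⊆ W) (w : V) : (W'.filter (G.Adj w)).card ≤ (W.filter (G.Adj w)).card :=
  card_le_card (filter_subset_filter _ h)

theorem filter_card_lt {G : SimpleGraph V} [DecidableRel G.Adj] {W W' : Finset V}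
    (h : W' ⊆ W) {w y : V} (hy : y ∈ W) (hy' : y ∉ W') (hwy : G.Adj w y) :
    (W'.filter (G.Adj w)).card + 1 ≤ (W.filter (G.Adj w)).card := by
  have h1 : W'.filter (G.Adj w) ⊆ (W.filter (G.Adj w)).erase y := by
    intro x hx
    rw [mem_filter] at hx
    rw [mem_erase, mem_filter]
    exact ⟨fun h' => hy' (h' ▸ hx.1), h hx.1, hx.2⟩
  have h2 : y ∈ W.filter (G.Adj w) := by rw [mem_filter]; exact ⟨hy, hwy⟩
  have h3 := card_le_card h1
  rw [card_erase_of_mem h2] at h3
  have : 0 < (W.filter (G.Adj w)).card := card_pos.2 ⟨y, h2⟩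
  omega

/-- Colouring the rest of a connected piece `C`, ending at the root set `E`. -/
theorem peel {G : SimpleGraph V} [DecidableRel G.Adj] {A : Finset V} {T0 : V → V → Fin 5}
    {W : Finset V} {F : V → Finset (Fin 5)} (hF : ∀ u ∉ A, F u = ∅)
    (C : Finset V) (hCA : ∀ u ∈ C, u ∉ A) (hCW : C ⊆ W) (hdeg : ∀ u ∈ C, (W.filter (G.Adj u)).card ≤ 3)
    (E : Finset V) (hEC : E ⊆ C)
    (hroom : ∀ w ∈ W \ E, (F w).card + ((W \ E).filter (G.Adj w)).card ≤ 3)
    (hconn : ∀ E', E ⊆ E' → E' ⊂ C → ∃ u ∈ E', ∃ v ∈ C \ E', G.Adj u v)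
    (hE : ∃ T, Good G A T0 (W \ C) F T) : ∃ T, Good G A T0 (W \ E) F T := by
  refine peel_gen (fun X => ∃ T, Good G A T0 X F T) W C E hEC hconn ?_ hE
  intro E' h1 h2 v hvC hvE ⟨u, hu, huv⟩ hex
  have hsub : W \ E' ⊆ W \ E := sdiff_subset_sdiff (subset_refl _) h1
  have h4 := sdiff_insert_eq (hCW hvC) hvE
  show ∃ T, Good G A T0 (W \ E') F T
  rw [h4]
  apply addLow (by simp) (hCA v hvC) (hF v (hCA v hvC)) _ _ hex
  · rw [← h4]
    intro w hw
    have h5 := hroom w (hsub hw)
    have h6 := filter_card_le (G := G) hsub w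
    omega
  · have h5 := filter_card_lt (G := G) (W := W) (W' := W \ insert v E') sdiff_subset
      (hCW (h2 hu)) (by simp [hu]) huv.symm
    have := hdeg v hvC
    omega

end MP_db9399_co.Sub3
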