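import Mathlib
import Pool.Agent.Work.MP_db9399_co_helper38.Glue

/-! Extension of precoloured distance-3 matchings in graphs with maximum degree three. -/

namespace MP_db9399_co.Sub3

open Finset

variable {V : Type*}

/-- `v 0, ..., v (n-1)` is a cycle inside `S`. -/
structure CS (G : SimpleGraph V) (S : Finset V) (n : ℕ) (v : ℕ → V) : Prop where
  three : 3 ≤ n
  mem : ∀ i < n, v i ∈ S
  adj : ∀ i, i + 1 < n → G.Adj (v i) (v (i + 1))
  close : G.Adj (v (n - 1)) (v 0)
  inj : ∀ i < n, ∀ j < n, v i = v j → i = j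

theorem cycle_or_leaf [DecidableEq V] (G : SimpleGraph V) (S : Finset V) (z0 : V) (hz0 : z0 ∈ S)
    (hz : ∃ w ∈ S, G.Adj z0 w) :
    (∃ n v, CS G S n v) ∨
      ∃ y ∈ S, y ≠ z0 ∧ ∀ w ∈ S, ∀ w' ∈ S, G.Adj y w → G.Adj y w' → w = w' := by
  let P : ℕ → Prop := fun m => ∃ v : ℕ → V, v 0 = z0 ∧ (∀ i ≤ m, v i ∈ S) ∧
    (∀ i < m, G.Adj (v i) (v (i + 1))) ∧ ∀ i ≤ m, ∀ j ≤ m, v i = v j → i = j
  have hP1 : P 1 := by
    obtain ⟨w, hw, hzw⟩ := hz
    refine ⟨fun i => if i = 0 then z0 else w, by simp, ?_, ?_, ?_⟩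
    · intro i _
      simp only
      split_ifs
      · exact hz0
      · exact hw
    · intro i hi
      have : i = 0 := by omega
      subst this
      simpa using hzw
    · intro i hi j hj h
      have hne := hzw.ne
      interval_cases i <;> interval_cases j <;> simp at h ⊢
      · exact hne h
      · exact hne h.symm
  have hPb : ¬ P S.card := by
    rintro ⟨v, -, h1, -, h2⟩
    have h3 : (range (S.card + 1)).card ≤ S.card := by
      apply card_le_card_of_injOn v
      · intro i hi
        rw [mem_coe, mem_range] at hi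
        exact h1 i (by omega)
      · intro i hi j hj h
        rw [mem_coe, mem_range] at hi hj
        exact h2 i (by omega) j (by omega) h
    rw [card_range] at h3
    omega
  obtain ⟨m, hm1, ⟨v, hv0, hvS, hva, hvi⟩, hnot⟩ : ∃ m, 1 ≤ m ∧ P m ∧ ¬ P (m + 1) := by
    by_contra hcon
    push Not at hcon
    apply hPb
    have : 1 ≤ S.card := card_pos.2 ⟨z0, hz0⟩
    exact Nat.le_induction hP1 (fun m hm h => hcon m hm h) S.card this
  by_cases hleaf : ∀ w ∈ S, ∀ w' ∈ S, G.Adj (v m) w → G.Adj (v m) w' → w = w'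
  · right
    refine ⟨v m, hvS m le_rfl, ?_, hleaf⟩
    rw [← hv0]
    intro h
    have := hvi m le_rfl 0 (by omega) h
    omega
  · left
    push Not at hleaf
    obtain ⟨w, hw, w', hw', ha, ha', hne⟩ := hleaf
    obtain ⟨u, huS, hua, hu⟩ : ∃ u ∈ S, G.Adj (v m) u ∧ u ≠ v (m - 1) := by
      by_cases h : w = v (m - 1)
      · exact ⟨w', hw', ha', fun h' => hne (h.trans h'.symm)⟩
      · exact ⟨w, hw, ha, h⟩
    by_cases hin : ∃ i ≤ m, v i = u
    · obtain ⟨i, hi, rfl⟩ := hin
      have h1 : i ≠ m := by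
        rintro rfl
        exact G.loopless.irrefl _ hua
      have h2 : i ≠ m - 1 := fun h => hu (by rw [h])
      refine ⟨m - i + 1, fun k => v (i + k), ⟨by omega, ?_, ?_, ?_, ?_⟩⟩
      · intro k hk; exact hvS _ (by omega)
      · intro k hk
        have := hva (i + k) (by omega)
        simpa [add_assoc] using this
      · have h3 : i + (m - i + 1 - 1) = m := by omega
        simp only [h3, add_zero]
        exact hua
      · intro k hk l hl h
        have := hvi _ (by omega) _ (by omega) h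
        omega
    · exfalso
      apply hnot
      push Not at hin
      refine ⟨fun i => if i ≤ m then v i else u, by simpa using hv0, ?_, ?_, ?_⟩
      · intro i _
        simp only
        split_ifs with h
        · exact hvS i h
        · exact huS
      · intro i hi
        simp only
        by_cases h : i + 1 ≤ m
        · rw [if_pos h, if_pos (by omega)]
          exact hva i (by omega)
        · have h1 : i = m := by omega
          rw [if_neg h, if_pos (by omega), h1]
          exact hua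
      · intro i hi j hj h
        simp only at h
        split_ifs at h with h1 h2 h2
        · exact hvi i h1 j h2 h
        · exact absurd h (hin i h1)
        · exact absurd h.symm (hin j h2)
        · omega

theorem chordless (G : SimpleGraph V) (S : Finset V) (h : ∃ n v, CS G S n v) :
    ∃ n v, CS G S n v ∧ ∀ i j, i < j → j < n → G.Adj (v i) (v j) →
      j = i + 1 ∨ (i = 0 ∧ j = n - 1) := by
  classical
  obtain ⟨v, hv⟩ := Nat.find_spec h
  refine ⟨Nat.find h, v, hv, ?_⟩
  intro i j hij hj hadj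
  by_contra hcon
  simp only [not_or, not_and] at hcon
  have hlt : j - i + 1 < Nat.find h := by
    by_cases h0 : i = 0
    · have := hcon.2 h0
      omega
    · omega
  apply Nat.find_min h hlt
  refine ⟨fun k => v (i + k), ⟨by omega, ?_, ?_, ?_, ?_⟩⟩
  · intro k hk; exact hv.mem _ (by omega)
  · intro k hk
    have := hv.adj (i + k) (by omega)
    simpa [add_assoc] using this
  · have h3 : i + (j - i + 1 - 1) = j := by omega
    simp only [h3, add_zero]
    exact hadj.symm
  · intro k hk l hl h'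
    have := hv.inj _ (by omega) _ (by omega) h'
    omega

/-- Adding back a chordless cycle all of whose vertices have three coloured neighbours. -/
theorem addCS [DecidableEq V] {G : SimpleGraph V} [DecidableRel G.Adj] {A : Finset V}
    {T0 : V → V → Fin 5} {W : Finset V} {F : V → Finset (Fin 5)} {C : Finset V} {n : ℕ} {v : ℕ → V}
    (hv : CS G C n v) (hch : ∀ i j, i < j → j < n → G.Adj (v i) (v j) →
      j = i + 1 ∨ (i = 0 ∧ j = n - 1))
    (hCA : ∀ u ∈ C, u ∉ A) (hCW : C ⊆ W) (hdeg : ∀ u ∈ C, (W.filter (G.Adj u)).card = 3)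
    (hroom : ∀ w ∈ W, (F w).card + (W.filter (G.Adj w)).card ≤ 3) (hF : ∀ u ∉ A, F u = ∅)
    (hE : ∃ T, Good G A T0 (W \ (range n).image v) F T) : ∃ T, Good G A T0 W F T := by
  have hn := hv.three
  have : NeZero n := ⟨by omega⟩
  have : Fact (1 < n) := ⟨by omega⟩
  let vZ : ZMod n → V := fun i => v i.val
  have hK : (range n).image v = univ.image vZ := by
    ext u
    simp only [mem_image, mem_range, mem_univ, true_and, vZ]
    constructor
    · rintro ⟨i, hi, rfl⟩
      exact ⟨(i : ZMod n), by rw [ZMod.val_natCast, Nat.mod_eq_of_lt hi]⟩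
    · rintro ⟨i, rfl⟩
      exact ⟨i.val, ZMod.val_lt i, rfl⟩
  have hinj : Function.Injective vZ := by
    intro i j h
    exact ZMod.val_injective n (hv.inj _ (ZMod.val_lt i) _ (ZMod.val_lt j) h)
  have hadj : ∀ i, G.Adj (vZ i) (vZ (i + 1)) := by
    intro i
    simp only [vZ]
    rcases val_succ hn i with h | ⟨h1, h2⟩
    · rw [h]
      exact hv.adj _ (by rw [← h]; exact ZMod.val_lt _)
    · rw [h1]
      have : i.val = n - 1 := by omega
      rw [this]
      exact hv.close
  have hval_inj : ∀ i j : ZMod n, i.val = j.val → i = j := fun i j h => ZMod.val_injective n h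
  have hchord : ∀ i j, G.Adj (vZ i) (vZ j) → j = i + 1 ∨ j = i - 1 := by
    have key : ∀ i j : ZMod n, i.val < j.val → G.Adj (vZ i) (vZ j) → j = i + 1 ∨ j = i - 1 := by
      intro i j hlt h
      rcases hch _ _ hlt (ZMod.val_lt j) h with h1 | ⟨h1, h2⟩
      · left
        apply hval_inj
        rcases val_succ hn i with h3 | ⟨h3, h4⟩
        · rw [h3, h1]
        · have := ZMod.val_lt j
          omega
      · right
        have h3 : i = j + 1 := by
          apply hval_inj
          rcases val_succ hn j with h3 | ⟨h3, h4⟩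
          · have := ZMod.val_lt (j + 1)
            omega
          · rw [h1, h3]
        rw [h3, add_sub_cancel_right]
    intro i j h
    rcases lt_trichotomy i.val j.val with h1 | h1 | h1
    · exact key i j h1 h
    · have := hval_inj i j h1
      rw [this] at h
      exact absurd h (G.loopless.irrefl _)
    · rcases key j i h1 h.symm with h2 | h2
      · right; rw [h2, add_sub_cancel_right]
      · left; rw [h2, sub_add_cancel]
  have hvC : ∀ i, vZ i ∈ C := fun i => hv.mem _ (ZMod.val_lt i)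
  have hne12 : ∀ i, vZ (i + 1) ≠ vZ (i - 1) := by
    intro i h
    have h1 := hinj h
    have h2 : ((1 : ZMod n) + 1) = 0 := by
      have h3 : i + 1 - (i - 1) = 0 := by rw [h1]; ring
      have h4 : i + 1 - (i - 1) = 1 + 1 := by ring
      rw [← h4, h3]
    have h1 := val_succ hn (1 : ZMod n)
    rw [ZMod.val_one] at h1
    rcases h1 with h1 | h1
    · rw [h2, ZMod.val_zero] at h1; omega
    · omega
  have hadj' : ∀ i, G.Adj (vZ i) (vZ (i - 1)) := by
    intro i
    have := hadj (i - 1)
    rw [sub_add_cancel] at this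
    exact this.symm
  -- the third neighbour
  have hz : ∀ i, ∃ z ∈ W, G.Adj (vZ i) z ∧ z ≠ vZ (i + 1) ∧ z ≠ vZ (i - 1) ∧
      ∀ w ∈ W, G.Adj (vZ i) w → w = vZ (i + 1) ∨ w = vZ (i - 1) ∨ w = z := by
    intro i
    have h1 : vZ (i + 1) ∈ W.filter (G.Adj (vZ i)) := by
      rw [mem_filter]; exact ⟨hCW (hvC _), hadj i⟩
    have h2 : vZ (i - 1) ∈ (W.filter (G.Adj (vZ i))).erase (vZ (i + 1)) := by
      rw [mem_erase, mem_filter]; exact ⟨(hne12 i).symm, hCW (hvC _), hadj' i⟩
    have h3 : (((W.filter (G.Adj (vZ i))).erase (vZ (i + 1))).erase (vZ (i - 1))).card = 1 := by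
      rw [card_erase_of_mem h2, card_erase_of_mem h1, hdeg _ (hvC i)]
    obtain ⟨z, hz⟩ := card_eq_one.1 h3
    have h4 : ∀ w, w ∈ ((W.filter (G.Adj (vZ i))).erase (vZ (i + 1))).erase (vZ (i - 1)) ↔
        w = z := by
      intro w; rw [hz, mem_singleton]
    have h5 := (h4 z).2 rfl
    rw [mem_erase, mem_erase, mem_filter] at h5
    refine ⟨z, h5.2.2.1, h5.2.2.2, h5.2.1, h5.1, ?_⟩
    intro w hw hvw
    by_cases h6 : w = vZ (i + 1)
    · exact Or.inl h6
    · by_cases h7 : w = vZ (i - 1)
      · exact Or.inr (Or.inl h7)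
      · right; right
        apply (h4 w).1
        rw [mem_erase, mem_erase, mem_filter]
        exact ⟨h7, h6, hw, hvw⟩
  choose z hzW hvz hz1 hz2 hzN using hz
  have hzK : ∀ i, z i ∉ univ.image vZ := by
    intro i h
    rw [mem_image] at h
    obtain ⟨j, -, hj⟩ := h
    have h1 := hvz i
    rw [← hj] at h1
    rcases hchord i j h1 with h2 | h2
    · exact hz1 i (by rw [← hj, h2])
    · exact hz2 i (by rw [← hj, h2])
  have hWK : W = (W \ univ.image vZ) ∪ univ.image vZ := by
    rw [sdiff_union_of_subset]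
    intro u hu
    rw [mem_image] at hu
    obtain ⟨i, -, rfl⟩ := hu
    exact hCW (hvC i)
  rw [hK] at hE
  rw [hWK]
  apply addCycle hn vZ hinj z (fun i => mem_sdiff.2 ⟨hzW i, hzK i⟩) _ _ (fun i => hCA _ (hvC i))
    (fun i => hF _ (hCA _ (hvC i))) _ hE
  · intro i w hw
    rw [← hWK] at hw
    exact hzN i w hw
  · intro i h
    rw [mem_sdiff] at h
    exact h.2 (mem_image_of_mem _ (mem_univ _))
  · intro i
    have h1 := hroom (z i) (hzW i)
    have h2 : ((W \ univ.image vZ).filter (G.Adj (z i))) ∪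
        (univ.filter (fun j => z j = z i)).image vZ ⊆ W.filter (G.Adj (z i)) := by
      intro w hw
      rw [mem_union] at hw
      rcases hw with hw | hw
      · rw [mem_filter, mem_sdiff] at hw
        rw [mem_filter]
        exact ⟨hw.1.1, hw.2⟩
      · rw [mem_image] at hw
        obtain ⟨j, hj, rfl⟩ := hw
        rw [mem_filter] at hj
        rw [mem_filter]
        exact ⟨hCW (hvC j), by rw [← hj.2]; exact (hvz j).symm⟩
    have h3 : Disjoint ((W \ univ.image vZ).filter (G.Adj (z i)))
        ((univ.filter (fun j => z j = z i)).image vZ) := by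
      rw [disjoint_left]
      intro w hw hw'
      rw [mem_filter, mem_sdiff] at hw
      rw [mem_image] at hw'
      obtain ⟨j, -, rfl⟩ := hw'
      exact hw.1.2 (mem_image_of_mem _ (mem_univ _))
    have h4 := card_le_card h2
    rw [card_union_of_disjoint h3, card_image_of_injective _ hinj] at h4
    omega

/-- Connected component facts. -/
theorem conn_root [DecidableEq V] (G : SimpleGraph V) (S : Finset V) (z0 : V) (C : Finset V)
    (hC : ∀ u, u ∈ C ↔ Relation.ReflTransGen (fun a b => a ∈ S ∧ b ∈ S ∧ G.Adj a b) z0 u)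
    (E : Finset V) (hE : E.Nonempty) (hEC : E ⊂ C) :
    ∃ u ∈ E, ∃ v ∈ C \ E, G.Adj u v := by
  by_contra hcon
  push Not at hcon
  have hz0 : z0 ∈ C := (hC z0).2 Relation.ReflTransGen.refl
  by_cases h0 : z0 ∈ E
  · have h1 : ∀ u, Relation.ReflTransGen (fun a b => a ∈ S ∧ b ∈ S ∧ G.Adj a b) z0 u → u ∈ E := by
      intro u hu
      induction hu with
      | refl => exact h0
      | tail h1 h2 ih =>
        by_contra h3
        rename_i b c
        exact hcon b ih c (mem_sdiff.2 ⟨(hC c).2 (h1.tail h2), h3⟩) h2.2.2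
    exact hEC.2 (fun u hu => h1 u ((hC u).1 hu))
  · have h1 : ∀ u, Relation.ReflTransGen (fun a b => a ∈ S ∧ b ∈ S ∧ G.Adj a b) z0 u → u ∉ E := by
      intro u hu
      induction hu with
      | refl => exact h0
      | tail h1 h2 ih =>
        rename_i b c
        intro h3
        exact hcon c h3 b (mem_sdiff.2 ⟨(hC b).2 h1, ih⟩) h2.2.2.symm
    obtain ⟨e, he⟩ := hE
    exact h1 e ((hC e).1 (hEC.1 he)) he

theorem main [DecidableEq V] (G : SimpleGraph V) [DecidableRel G.Adj] (A : Finset V)
    (hA1 : ∀ y ∉ A, ∀ a ∈ A, ∀ b ∈ A, G.Adj y a → G.Adj y b → a ≠ b → G.Adj a b)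
    (hA2 : ∀ a ∈ A, ∀ b ∈ A, ∀ c ∈ A, G.Adj a b → G.Adj a c → b = c)
    (T0 : V → V → Fin 5) (hT0 : Good G A T0 A (fun _ => ∅) T0) (k : ℕ) :
    ∀ (W : Finset V) (F : V → Finset (Fin 5)), (W \ A).card = k → A ⊆ W →
      (∀ u ∈ W \ A, ∀ w, G.Adj u w → w ∈ W) → (∀ u ∉ A, F u = ∅) →
      (∀ w ∈ W, (F w).card + (W.filter (G.Adj w)).card ≤ 3) →
      (∀ u ∈ A, ∀ v ∈ A, (v = u ∨ G.Adj u v) → T0 u v ∉ F u) →
      (∃ z : V, ∀ y ∈ W \ A, y ≠ z → ∀ a ∈ A, ∀ b ∈ A, G.Adj y a → G.Adj y b → a ≠ b →
        F a = ∅ ∧ F b = ∅) → ∃ T, Good G A T0 W F T := by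
  induction k using Nat.strong_induction_on with
  | _ k ih =>
  intro W F hk hAW hcl hFA hroom hTF ⟨z, hz⟩
  rcases (W \ A).eq_empty_or_nonempty with hS | hS
  · have hWA : W = A := subset_antisymm (sdiff_eq_empty_iff_subset.1 hS) hAW
    subst hWA
    exact ⟨T0, hT0.symm, hT0.inj, hT0.vert, hTF, hT0.ext⟩
  obtain ⟨z0, hz0S, hz0⟩ : ∃ z0 ∈ W \ A, z ∈ W \ A → z0 = z := by
    by_cases h : z ∈ W \ A
    · exact ⟨z, h, fun _ => rfl⟩
    · obtain ⟨z0, h0⟩ := hS
      exact ⟨z0, h0, fun h' => absurd h' h⟩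
  classical
  -- the component of `z0`
  obtain ⟨C, hC⟩ : ∃ C : Finset V, ∀ u, u ∈ C ↔
      Relation.ReflTransGen (fun a b => a ∈ W \ A ∧ b ∈ W \ A ∧ G.Adj a b) z0 u := by
    refine ⟨(W \ A).filter (fun u =>
      Relation.ReflTransGen (fun a b => a ∈ W \ A ∧ b ∈ W \ A ∧ G.Adj a b) z0 u), ?_⟩
    intro u
    rw [mem_filter]
    refine ⟨fun h => h.2, fun h => ⟨?_, h⟩⟩
    rcases Relation.ReflTransGen.cases_tail h with h1 | ⟨b, -, h2⟩
    · rw [h1]; exact hz0S
    · exact h2.2.1
  have hCS : C ⊆ W \ A := by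
    intro u hu
    rcases Relation.ReflTransGen.cases_tail ((hC u).1 hu) with h1 | ⟨b, -, h2⟩
    · rw [h1]; exact hz0S
    · exact h2.2.1
  have hz0C : z0 ∈ C := (hC z0).2 Relation.ReflTransGen.refl
  have hCcl : ∀ u ∈ C, ∀ w ∈ W \ A, G.Adj u w → w ∈ C := by
    intro u hu w hw huw
    exact (hC w).2 (((hC u).1 hu).tail ⟨hCS hu, hw, huw⟩)
  have hCA : ∀ u ∈ C, u ∉ A := fun u hu => (mem_sdiff.1 (hCS hu)).2
  have hCW : C ⊆ W := fun u hu => (mem_sdiff.1 (hCS hu)).1
  have hzC : ∀ y ∈ (W \ C) \ A, y ≠ z := by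
    intro y hy h
    rw [mem_sdiff, mem_sdiff] at hy
    have h1 : z ∈ W \ A := mem_sdiff.2 ⟨h ▸ hy.1.1, h ▸ hy.2⟩
    have h2 := hz0 h1
    exact hy.1.2 (h ▸ h2 ▸ hz0C)
  have hsub : (W \ C) \ A ⊆ W \ A := by
    intro y hy
    rw [mem_sdiff, mem_sdiff] at hy
    exact mem_sdiff.2 ⟨hy.1.1, hy.2⟩
  have hlt : ((W \ C) \ A).card < k := by
    rw [← hk]
    apply card_lt_card
    refine ⟨hsub, fun h => ?_⟩
    have := h hz0S
    rw [mem_sdiff, mem_sdiff] at this
    exact this.1.2 hz0C
  have hAWC : A ⊆ W \ C := fun a ha => mem_sdiff.2 ⟨hAW ha, fun h => hCA a h ha⟩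
  have hclC : ∀ u ∈ (W \ C) \ A, ∀ w, G.Adj u w → w ∈ W \ C := by
    intro u hu w huw
    refine mem_sdiff.2 ⟨hcl u (hsub hu) w huw, fun h => ?_⟩
    have := hCcl w h u (hsub hu) huw.symm
    rw [mem_sdiff, mem_sdiff] at hu
    exact hu.1.2 this
  have hroomsub : ∀ W', W' ⊆ W → ∀ w ∈ W', (F w).card + (W'.filter (G.Adj w)).card ≤ 3 := by
    intro W' hW' w hw
    have h1 := hroom w (hW' hw)
    have h2 := filter_card_le (G := G) hW' w
    omega
  have hIH : ∃ T, Good G A T0 (W \ C) F T :=
    ih _ hlt (W \ C) F rfl hAWC hclC hFA (hroomsub _ sdiff_subset) hTF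
      ⟨z, fun y hy hyz => hz y (hsub hy) hyz⟩
  have hdegW : ∀ u ∈ W, (W.filter (G.Adj u)).card ≤ 3 := by
    intro u hu
    have := hroom u hu
    omega
  have hconn : ∀ E : Finset V, E.Nonempty → ∀ E', E ⊆ E' → E' ⊂ C →
      ∃ u ∈ E', ∃ v ∈ C \ E', G.Adj u v := by
    intro E hE E' hEE' hE'C
    exact conn_root G (W \ A) z0 C hC E' (hE.mono hEE') hE'C
  -- case (a): a vertex with at most two neighbours
  by_cases hlow : ∃ r ∈ C, (W.filter (G.Adj r)).card ≤ 2
  · obtain ⟨r, hrC, hr⟩ := hlow
    have h1 : ∃ T, Good G A T0 (W \ {r}) F T :=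
      peel hFA C hCA hCW (fun u hu => hdegW u (hCW hu)) {r} (by simpa using hrC)
        (hroomsub _ sdiff_subset) (hconn {r} (singleton_nonempty r)) hIH
    have h2 : W = insert r (W \ {r}) := by
      ext w
      simp only [mem_insert, mem_sdiff, mem_singleton]
      by_cases h : w = r
      · simp [h, hCW hrC]
      · simp [h]
    rw [h2]
    apply addLow (by simp) (hCA r hrC) (hFA r (hCA r hrC)) _ _ h1
    · rw [← h2]; exact hroom
    · have := filter_card_le (G := G) (W := W) (W' := W \ {r}) sdiff_subset r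
      omega
  push Not at hlow
  have hdeg3 : ∀ u ∈ C, (W.filter (G.Adj u)).card = 3 := by
    intro u hu
    have h1 := hlow u hu
    have h2 := hdegW u (hCW hu)
    omega
  -- at most two neighbours in `A`
  have hA2' : ∀ u ∈ C, (A.filter (G.Adj u)).card ≤ 2 := by
    intro u hu
    by_contra hcon
    obtain ⟨a, ha, b, hb, c, hc, hab, hac, hbc⟩ := two_lt_card.1 (not_le.1 hcon)
    rw [mem_filter] at ha hb hc
    have h1 := hA1 u (hCA u hu) a ha.1 b hb.1 ha.2 hb.2 hab
    have h2 := hA1 u (hCA u hu) a ha.1 c hc.1 ha.2 hc.2 hac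
    exact hbc (hA2 a ha.1 b hb.1 c hc.1 h1 h2)
  have hsplit : ∀ u ∈ C, (W.filter (G.Adj u)).card ≤ (A.filter (G.Adj u)).card +
      (C.filter (G.Adj u)).card := by
    intro u hu
    have h1 : W.filter (G.Adj u) ⊆ A.filter (G.Adj u) ∪ C.filter (G.Adj u) := by
      intro w hw
      rw [mem_filter] at hw
      rw [mem_union, mem_filter, mem_filter]
      by_cases h : w ∈ A
      · exact Or.inl ⟨h, hw.2⟩
      · exact Or.inr ⟨hCcl u hu w (mem_sdiff.2 ⟨hw.1, h⟩) hw.2, hw.2⟩
    exact (card_le_card h1).trans (card_union_le _ _)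
  have hnbr : ∀ u ∈ C, ∃ w ∈ C, G.Adj u w := by
    intro u hu
    have h1 := hA2' u hu
    have h2 := hsplit u hu
    rw [hdeg3 u hu] at h2
    have h3 : 0 < (C.filter (G.Adj u)).card := by omega
    obtain ⟨w, hw⟩ := card_pos.1 h3
    rw [mem_filter] at hw
    exact ⟨w, hw.1, hw.2⟩
  rcases cycle_or_leaf G C z0 hz0C (hnbr z0 hz0C) with hcyc | ⟨y, hyC, hyz0, hleaf⟩
  · -- case (c): a cycle
    obtain ⟨n, v, hv, hch⟩ := chordless G C hcyc
    have hEC : (range n).image v ⊆ C := by
      intro u hu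
      rw [mem_image] at hu
      obtain ⟨i, hi, rfl⟩ := hu
      exact hv.mem i (mem_range.1 hi)
    have hEne : ((range n).image v).Nonempty := by
      have := hv.three
      exact ⟨v 0, mem_image_of_mem _ (mem_range.2 (by omega))⟩
    apply addCS hv hch hCA hCW hdeg3 hroom hFA
    exact peel hFA C hCA hCW (fun u hu => hdegW u (hCW hu)) _ hEC
      (hroomsub _ sdiff_subset) (hconn _ hEne) hIH
  · -- case (b): an apex with reserved stub colours
    have hyA := hCA y hyC
    have hyW := hCW hyC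
    obtain ⟨y', hy'C, hyy'⟩ := hnbr y hyC
    have hCy : C.filter (G.Adj y) ⊆ {y'} := by
      intro w hw
      rw [mem_filter] at hw
      rw [mem_singleton]
      exact hleaf w hw.1 y' hy'C hw.2 hyy'
    have hAy : (A.filter (G.Adj y)).card = 2 := by
      have h1 := hA2' y hyC
      have h2 := hsplit y hyC
      rw [hdeg3 y hyC] at h2
      have h3 := card_le_card hCy
      rw [card_singleton] at h3
      omega
    obtain ⟨a, b, hne, hab'⟩ := card_eq_two.1 hAy
    have ha' : a ∈ A.filter (G.Adj y) := by rw [hab']; simp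
    have hb' : b ∈ A.filter (G.Adj y) := by rw [hab']; simp
    rw [mem_filter] at ha' hb'
    obtain ⟨ha, hya⟩ := ha'
    obtain ⟨hb, hyb⟩ := hb'
    have hab : G.Adj a b := hA1 y hyA a ha b hb hya hyb hne
    have hyz : y ≠ z := by
      intro h
      have h1 : z ∈ W \ A := h ▸ hCS hyC
      exact hyz0 (h.trans (hz0 h1).symm)
    obtain ⟨hFa, hFb⟩ := hz y (hCS hyC) hyz a ha b hb hya hyb hne
    set F' : V → Finset (Fin 5) := Function.update (Function.update F a {T0 b b}) b {T0 a a}
      with hF'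
    have hF'a : F' a = {T0 b b} := by
      rw [hF', Function.update_of_ne hne, Function.update_self]
    have hF'b : F' b = {T0 a a} := by
      rw [hF', Function.update_self]
    have hF'o : ∀ u, u ≠ a → u ≠ b → F' u = F u := by
      intro u h1 h2
      rw [hF', Function.update_of_ne h2, Function.update_of_ne h1]
    have hF'A : ∀ u ∉ A, F' u = ∅ := by
      intro u hu
      rw [hF'o u (fun h => hu (h ▸ ha)) (fun h => hu (h ▸ hb))]
      exact hFA u hu
    have hroom' : ∀ W', W' ⊆ W → y ∉ W' → ∀ w ∈ W',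
        (F' w).card + (W'.filter (G.Adj w)).card ≤ 3 := by
      intro W' hW' hyW' w hw
      by_cases h1 : w = a
      · rw [h1, hF'a, card_singleton]
        have h2 := filter_card_lt hW' hyW hyW' hya.symm
        have h3 := hdegW a (hAW ha)
        omega
      · by_cases h2 : w = b
        · rw [h2, hF'b, card_singleton]
          have h2 := filter_card_lt hW' hyW hyW' hyb.symm
          have h3 := hdegW b (hAW hb)
          omega
        · rw [hF'o w h1 h2]
          exact hroomsub W' hW' w hw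
    have hTF' : ∀ u ∈ A, ∀ v ∈ A, (v = u ∨ G.Adj u v) → T0 u v ∉ F' u := by
      intro u hu v hv huv
      by_cases h1 : u = a
      · subst h1
        rw [hF'a, mem_singleton]
        rcases huv with rfl | huv
        · exact hT0.vert _ hu b hb hab
        · have : v = b := hA2 _ hu v hv b hb huv hab
          subst this
          rw [hT0.symm _ hu _ hv huv]
          exact hT0.inj v hv _ hu v hv (Or.inr huv.symm) (Or.inl rfl) huv.ne
      · by_cases h2 : u = b
        · subst h2
          rw [hF'b, mem_singleton]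
          rcases huv with rfl | huv
          · exact hT0.vert _ hu a ha hab.symm
          · have : v = a := hA2 _ hu v hv a ha huv hab.symm
            subst this
            rw [hT0.symm _ hu _ hv huv]
            exact hT0.inj v hv _ hu v hv (Or.inr huv.symm) (Or.inl rfl) huv.ne
        · rw [hF'o u h1 h2]
          exact hTF u hu v hv huv
    -- the third neighbour of `a`
    obtain ⟨z', hz'⟩ : ∃ z', ∀ w ∈ W, G.Adj a w → w ≠ b → w ≠ y → w = z' := by
      by_contra hcon
      push Not at hcon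
      obtain ⟨w1, hw1, h1, h2, h3, -⟩ := hcon a
      obtain ⟨w2, hw2, h4, h5, h6, h7⟩ := hcon w1
      have h8 : ({b, y, w1, w2} : Finset V) ⊆ W.filter (G.Adj a) := by
        intro x hx
        simp only [mem_insert, mem_singleton] at hx
        rw [mem_filter]
        rcases hx with rfl | rfl | rfl | rfl
        · exact ⟨hAW hb, hab⟩
        · exact ⟨hyW, hya.symm⟩
        · exact ⟨hw1, h1⟩
        · exact ⟨hw2, h4⟩
      have h9 : ({b, y, w1, w2} : Finset V).card = 4 := by
        rw [card_insert_of_notMem, card_insert_of_notMem, card_insert_of_notMem, card_singleton]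
        · simpa using h7.symm
        · simp only [mem_insert, mem_singleton, not_or]
          exact ⟨h3.symm, h6.symm⟩
        · simp only [mem_insert, mem_singleton, not_or]
          exact ⟨hyb.ne', h2.symm, h5.symm⟩
      have h10 := card_le_card h8
      have h11 := hdegW a (hAW ha)
      omega
    have hIH' : ∃ T, Good G A T0 (W \ C) F' T := by
      refine ih _ hlt (W \ C) F' rfl hAWC hclC hF'A
        (hroom' _ sdiff_subset (fun h => (mem_sdiff.1 h).2 hyC)) hTF' ⟨z', ?_⟩
      intro y2 hy2 hy2z a2 ha2 b2 hb2 h1 h2 hne2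
      have hy2' := hy2
      rw [mem_sdiff, mem_sdiff] at hy2'
      have hy2W : y2 ∈ W := hy2'.1.1
      have hy2b : y2 ≠ b := fun h => hy2'.2 (h ▸ hb)
      have hy2y : y2 ≠ y := fun h => hy2'.1.2 (h ▸ hyC)
      have hab2 := hA1 y2 hy2'.2 a2 ha2 b2 hb2 h1 h2 hne2
      have hnota : ¬ G.Adj a y2 := fun h => hy2z (hz' y2 hy2W h hy2b hy2y)
      have ha2a : a2 ≠ a := fun h => hnota (h ▸ h1.symm)
      have hb2a : b2 ≠ a := fun h => hnota (h ▸ h2.symm)
      have ha2b : a2 ≠ b := by
        intro h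
        rw [h] at hab2
        exact hb2a (hA2 b hb b2 hb2 a ha hab2 hab.symm)
      have hb2b : b2 ≠ b := by
        intro h
        rw [h] at hab2
        exact ha2a (hA2 b hb a2 ha2 a ha hab2.symm hab.symm)
      rw [hF'o a2 ha2a ha2b, hF'o b2 hb2a hb2b]
      exact hz y2 (hsub hy2) (hzC y2 hy2) a2 ha2 b2 hb2 h1 h2 hne2
    have h1 : ∃ T, Good G A T0 (W \ {y}) F' T :=
      peel hF'A C hCA hCW (fun u hu => hdegW u (hCW hu)) {y} (by simpa using hyC)
        (hroom' _ sdiff_subset (by simp)) (hconn {y} (singleton_nonempty y)) hIH'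
    have h2 : W = insert y (W \ {y}) := by
      ext w
      simp only [mem_insert, mem_sdiff, mem_singleton]
      by_cases h : w = y
      · simp [h, hyW]
      · simp [h]
    rw [h2]
    refine addApex (a := a) (b := b) (y' := y') ?_ (by simp) hyA (hFA y hyA) ha hb hab hya hyb
      ?_ ?_ ?_ ?_ hFa hFb ?_ ?_ h1
    · intro w hw
      rw [mem_sdiff, mem_singleton]
      exact ⟨hAW hw, fun h => hyA (h ▸ hw)⟩
    · rw [mem_sdiff, mem_singleton]
      exact ⟨hCW hy'C, hyy'.ne'⟩
    · exact fun h => hCA y' hy'C (h ▸ ha)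
    · exact fun h => hCA y' hy'C (h ▸ hb)
    · intro w hw hyw
      rw [mem_sdiff] at hw
      by_cases hwA : w ∈ A
      · have h3 : w ∈ A.filter (G.Adj y) := by rw [mem_filter]; exact ⟨hwA, hyw⟩
        rw [hab'] at h3
        simp only [mem_insert, mem_singleton] at h3
        rcases h3 with h3 | h3
        · exact Or.inl h3
        · exact Or.inr (Or.inl h3)
      · have h3 := hCcl y hyC w (mem_sdiff.2 ⟨hw.1, hwA⟩) hyw
        exact Or.inr (Or.inr (hleaf w h3 y' hy'C hyw hyy'))
    · have h3 := filter_card_lt (G := G) (W := W) (W' := W \ {y}) sdiff_subset hyW (by simp)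
        hya.symm
      have h4 := hdegW a (hAW ha)
      omega
    · rw [hFA y' (hCA y' hy'C), card_empty]
      have h3 := filter_card_lt (G := G) (W := W) (W' := W \ {y}) sdiff_subset hyW (by simp)
        hyy'.symm
      have h4 := hdegW y' (hCW hy'C)
      omega

end MP_db9399_co.Sub3
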