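import Mathlib
import Pool.Agent.Work.MP_db9399_co_helper38.Main

/-! Maximum degree at most two (four colours) and at most one (three colours). -/

namespace MP_db9399_co.Sub3

open Finset

variable {V : Type*} [DecidableEq V] {κ : Type*}

theorem exists_comp (G : SimpleGraph V) (S : Finset V) (z0 : V) (hz0 : z0 ∈ S) :
    ∃ C ⊆ S, z0 ∈ C ∧ (∀ u ∈ C, ∀ w ∈ S, G.Adj u w → w ∈ C) ∧
      ∀ E : Finset V, E.Nonempty → E ⊂ C → ∃ u ∈ E, ∃ v ∈ C \ E, G.Adj u v := by
  classical
  obtain ⟨C, hC⟩ : ∃ C : Finset V, ∀ u, u ∈ C ↔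
      Relation.ReflTransGen (fun a b => a ∈ S ∧ b ∈ S ∧ G.Adj a b) z0 u := by
    refine ⟨S.filter (fun u =>
      Relation.ReflTransGen (fun a b => a ∈ S ∧ b ∈ S ∧ G.Adj a b) z0 u), ?_⟩
    intro u
    rw [mem_filter]
    refine ⟨fun h => h.2, fun h => ⟨?_, h⟩⟩
    rcases Relation.ReflTransGen.cases_tail h with h1 | ⟨b, -, h2⟩
    · rw [h1]; exact hz0
    · exact h2.2.1
  have hCS : C ⊆ S := by
    intro u hu
    rcases Relation.ReflTransGen.cases_tail ((hC u).1 hu) with h1 | ⟨b, -, h2⟩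
    · rw [h1]; exact hz0
    · exact h2.2.1
  refine ⟨C, hCS, (hC z0).2 Relation.ReflTransGen.refl, ?_, ?_⟩
  · intro u hu w hw huw
    exact (hC w).2 (((hC u).1 hu).tail ⟨hCS hu, hw, huw⟩)
  · intro E hE hEC
    exact conn_root G S z0 C hC E hE hEC

/-- Adding a vertex with at most one coloured neighbour. -/
theorem addOne [Fintype κ] [DecidableEq κ] {G : SimpleGraph V} [DecidableRel G.Adj] {A : Finset V}
    {T0 : V → V → κ} {W0 : Finset V} {v : V} (hv : v ∉ W0) (hvA : v ∉ A) (hκ : 3 ≤ Fintype.card κ)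
    (hroom : ∀ w ∈ W0, G.Adj v w → (W0.filter (G.Adj w)).card + 2 ≤ Fintype.card κ)
    (hdeg : (W0.filter (G.Adj v)).card ≤ 1) (hE : ∃ T, Good G A T0 W0 (fun _ => ∅) T) :
    ∃ T, Good G A T0 (insert v W0) (fun _ => ∅) T := by
  obtain ⟨T, hT⟩ := hE
  rcases (W0.filter (G.Adj v)).eq_empty_or_nonempty with hN | ⟨w1, hw1⟩
  · have hno : ∀ w ∈ W0, ¬ G.Adj v w := by
      intro w hw hvw
      have : w ∈ W0.filter (G.Adj v) := by simp [hw, hvw]
      rw [hN] at this
      simp at this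
    exact extend1 hT v hv hvA rfl (T v v) (fun _ => T v v) (fun w hw h => absurd h (hno w hw))
      (fun w hw _ _ h => absurd h (hno w hw)) (fun w hw h => absurd h (hno w hw))
      (fun w hw h => absurd h (hno w hw)) (fun w hw h => absurd h (hno w hw))
  · have hN : ∀ w ∈ W0, G.Adj v w → w = w1 := by
      intro w hw hvw
      exact card_le_one.1 hdeg w (by simp [hw, hvw]) w1 hw1
    rw [mem_filter] at hw1
    have h1 := hroom w1 hw1.1 hw1.2
    have h2 := card_Av G W0 (fun _ => ∅) T w1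
    simp only [card_empty, add_zero] at h2
    obtain ⟨f, hf⟩ := card_pos.1 (show 0 < (Av G W0 (fun _ => ∅) T w1).card by omega)
    rw [mem_Av] at hf
    obtain ⟨X, hX⟩ : ∃ X : κ, X ∉ ({f, T w1 w1} : Finset κ) := by
      by_contra hcon
      push Not at hcon
      have h3 : (univ : Finset κ) ⊆ {f, T w1 w1} := fun x _ => hcon x
      have h4 := card_le_card h3
      rw [card_univ] at h4
      have h5 : ({f, T w1 w1} : Finset κ).card ≤ 2 := card_le_two
      omega
    simp only [mem_insert, mem_singleton, not_or] at hX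
    refine extend1 hT v hv hvA rfl X (fun _ => f) (fun w _ _ => Ne.symm hX.1) ?_ ?_ ?_ ?_
    · intro w hw w' hw' h h' hne
      exact absurd ((hN w hw h).trans (hN w' hw' h').symm) hne
    · intro w hw h w' hw' hww'
      have := hN w hw h
      subst this
      exact hf.2 w' hw' hww'
    · intro w hw h
      simp
    · intro w hw h
      have := hN w hw h
      subst this
      exact hX.2

/-- Adding two adjacent vertices, each with one coloured neighbour. -/
theorem addPair {G : SimpleGraph V} {A : Finset V} {T0 : V → V → κ} {W0 : Finset V}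
    {r1 r2 w1 w2 : V} (h12 : G.Adj r1 r2) (hr1 : r1 ∉ W0) (hr2 : r2 ∉ W0) (hr1A : r1 ∉ A)
    (hr2A : r2 ∉ A) (hw1 : w1 ∈ W0) (hw2 : w2 ∈ W0)
    (hN1 : ∀ w ∈ W0, G.Adj r1 w → w = w1) (hN2 : ∀ w ∈ W0, G.Adj r2 w → w = w2)
    (T : V → V → κ) (hT : Good G A T0 W0 (fun _ => ∅) T) (s2 s3 s4 s5 s6 : κ)
    (h2 : ∀ w ∈ W0, (w = w1 ∨ G.Adj w1 w) → s2 ≠ T w1 w)
    (h6 : ∀ w ∈ W0, (w = w2 ∨ G.Adj w2 w) → s6 ≠ T w2 w) (h26 : w1 = w2 → s2 ≠ s6)
    (h3 : s3 ≠ T w1 w1) (h32 : s3 ≠ s2) (h34 : s3 ≠ s4) (h35 : s3 ≠ s5) (h5 : s5 ≠ T w2 w2)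
    (h56 : s5 ≠ s6) (h54 : s5 ≠ s4) (h42 : s4 ≠ s2) (h46 : s4 ≠ s6) :
    ∃ T, Good G A T0 (W0 ∪ {r1, r2}) (fun _ => ∅) T := by
  have hne := h12.ne
  have hw1r1 : w1 ≠ r1 := fun h => hr1 (h ▸ hw1)
  have hw1r2 : w1 ≠ r2 := fun h => hr2 (h ▸ hw1)
  have hw2r1 : w2 ≠ r1 := fun h => hr1 (h ▸ hw2)
  have hw2r2 : w2 ≠ r2 := fun h => hr2 (h ▸ hw2)
  have hWr1 : ∀ w ∈ W0, w ≠ r1 := fun w hw h => hr1 (h ▸ hw)
  have hWr2 : ∀ w ∈ W0, w ≠ r2 := fun w hw h => hr2 (h ▸ hw)
  let new : V → V → κ := fun u v => if u = r1 ∧ v = r1 then s3 else if u = r2 ∧ v = r2 then s5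
    else if (u = r1 ∧ v = r2) ∨ (u = r2 ∧ v = r1) then s4 else if u = r1 ∨ v = r1 then s2 else s6
  have n11 : new r1 r1 = s3 := by simp [new]
  have n22 : new r2 r2 = s5 := by simp [new, hne.symm]
  have n12 : new r1 r2 = s4 := by simp [new, hne, hne.symm]
  have n21 : new r2 r1 = s4 := by simp [new, hne, hne.symm]
  have n1w : ∀ w ∈ W0, new r1 w = s2 := by
    intro w hw; simp [new, hne, hWr1 w hw, hWr2 w hw]
  have nw1 : ∀ w ∈ W0, new w r1 = s2 := by
    intro w hw; simp [new, hne, hWr1 w hw, hWr2 w hw]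
  have n2w : ∀ w ∈ W0, new r2 w = s6 := by
    intro w hw; simp [new, hne.symm, hWr1 w hw, hWr2 w hw]
  have nw2 : ∀ w ∈ W0, new w r2 = s6 := by
    intro w hw; simp [new, hne.symm, hWr1 w hw, hWr2 w hw]
  have hcase1 : ∀ w ∈ W0 ∪ {r1, r2}, (w = r1 ∨ G.Adj r1 w) → w = r1 ∨ w = r2 ∨ w = w1 := by
    intro w hw h
    rw [mem_union, mem_insert, mem_singleton] at hw
    rcases hw with hw | hw | hw
    · rcases h with h | h
      · exact Or.inl h
      · exact Or.inr (Or.inr (hN1 w hw h))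
    · exact Or.inl hw
    · exact Or.inr (Or.inl hw)
  have hcase2 : ∀ w ∈ W0 ∪ {r1, r2}, (w = r2 ∨ G.Adj r2 w) → w = r2 ∨ w = r1 ∨ w = w2 := by
    intro w hw h
    rw [mem_union, mem_insert, mem_singleton] at hw
    rcases hw with hw | hw | hw
    · rcases h with h | h
      · exact Or.inl h
      · exact Or.inr (Or.inr (hN2 w hw h))
    · exact Or.inr (Or.inl hw)
    · exact Or.inl hw
  refine ⟨_, glue hT {r1, r2} ?_ new ?_ ?_ ?_ ?_ ?_ ?_ ?_ ?_⟩
  · intro u hu
    rw [mem_insert, mem_singleton] at hu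
    rcases hu with rfl | rfl
    · exact hr1A
    · exact hr2A
  · intro u hu w hw huw
    rw [mem_insert, mem_singleton] at hu
    rcases hu with rfl | rfl
    · rcases hcase1 w hw (Or.inr huw) with rfl | rfl | rfl
      · rfl
      · rw [n12, n21]
      · rw [n1w _ hw1, nw1 _ hw1]
    · rcases hcase2 w hw (Or.inr huw) with rfl | rfl | rfl
      · rfl
      · rw [n12, n21]
      · rw [n2w _ hw2, nw2 _ hw2]
  · intro u hu w hw w' hw' huw huw' hww
    rw [mem_insert, mem_singleton] at hu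
    rcases hu with rfl | rfl
    · rcases hcase1 w hw huw with h | h | h <;> rcases hcase1 w' hw' huw' with h' | h' | h' <;>
        rw [h, h']
      · exact absurd (h.trans h'.symm) hww
      · rw [n11, n12]; exact h34
      · rw [n11, n1w _ hw1]; exact h32
      · rw [n11, n12]; exact h34.symm
      · exact absurd (h.trans h'.symm) hww
      · rw [n12, n1w _ hw1]; exact h42
      · rw [n11, n1w _ hw1]; exact h32.symm
      · rw [n12, n1w _ hw1]; exact h42.symm
      · exact absurd (h.trans h'.symm) hww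
    · rcases hcase2 w hw huw with h | h | h <;> rcases hcase2 w' hw' huw' with h' | h' | h' <;>
        rw [h, h']
      · exact absurd (h.trans h'.symm) hww
      · rw [n22, n21]; exact h54
      · rw [n22, n2w _ hw2]; exact h56
      · rw [n22, n21]; exact h54.symm
      · exact absurd (h.trans h'.symm) hww
      · rw [n21, n2w _ hw2]; exact h46
      · rw [n22, n2w _ hw2]; exact h56.symm
      · rw [n21, n2w _ hw2]; exact h46.symm
      · exact absurd (h.trans h'.symm) hww
  · intro w hw u hu u' hu' h h' hne'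
    rw [mem_insert, mem_singleton] at hu hu'
    rcases hu with rfl | rfl <;> rcases hu' with rfl | rfl
    · exact absurd rfl hne'
    · rw [nw1 w hw, nw2 w hw]
      exact h26 ((hN1 w hw h.symm).symm.trans (hN2 w hw h'.symm))
    · rw [nw1 w hw, nw2 w hw]
      exact (h26 ((hN1 w hw h'.symm).symm.trans (hN2 w hw h.symm))).symm
    · exact absurd rfl hne'
  · intro w hw u hu w' hw' h hww
    rw [mem_insert, mem_singleton] at hu
    rcases hu with rfl | rfl
    · rw [nw1 w hw]
      have := hN1 w hw h.symm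
      subst this
      exact h2 w' hw' hww
    · rw [nw2 w hw]
      have := hN2 w hw h.symm
      subst this
      exact h6 w' hw' hww
  · intro w _ u _ _
    simp
  · intro u hu u' hu' h
    rw [mem_insert, mem_singleton] at hu hu'
    rcases hu with rfl | rfl <;> rcases hu' with rfl | rfl
    · exact absurd h (G.loopless.irrefl _)
    · rw [n11, n22]; exact h35
    · rw [n11, n22]; exact h35.symm
    · exact absurd h (G.loopless.irrefl _)
  · intro u hu w hw h
    rw [mem_insert, mem_singleton] at hu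
    rcases hu with rfl | rfl
    · rw [n11, hN1 w hw h]; exact h3
    · rw [n22, hN2 w hw h]; exact h5
  · intro u _; rfl

set_option maxRecDepth 100000 in
set_option synthInstance.maxHeartbeats 400000 in
set_option synthInstance.maxSize 100000 in
theorem close7 : ∀ e1 c1 c2 e2 : Fin 4, e1 ≠ c1 → c2 ≠ e2 → ∃ s2 : Fin 4, s2 ≠ e1 ∧ s2 ≠ c1 ∧
    ∃ s3 : Fin 4, s3 ≠ c1 ∧ s3 ≠ s2 ∧ ∃ s4 : Fin 4, s4 ≠ s2 ∧ s4 ≠ s3 ∧
    ∃ s5 : Fin 4, s5 ≠ s3 ∧ s5 ≠ s4 ∧ s5 ≠ c2 ∧
    ∃ s6 : Fin 4, s6 ≠ s4 ∧ s6 ≠ s5 ∧ s6 ≠ c2 ∧ s6 ≠ e2 := by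
  decide

theorem exists_ne3 : ∀ a b c : Fin 4, ∃ x : Fin 4, x ≠ a ∧ x ≠ b ∧ x ≠ c := by decide

omit [DecidableEq V] in
theorem other_edge {G : SimpleGraph V} [DecidableRel G.Adj] {W0 : Finset V} (T : V → V → Fin 4)
    {w1 : V} (hd : (W0.filter (G.Adj w1)).card ≤ 1)
    (h : ∀ w ∈ W0, G.Adj w1 w → T w1 w ≠ T w1 w1) :
    ∃ e, e ≠ T w1 w1 ∧ ∀ w ∈ W0, G.Adj w1 w → T w1 w = e := by
  rcases (W0.filter (G.Adj w1)).eq_empty_or_nonempty with hN | ⟨w0, hw0⟩
  · obtain ⟨e, he, -, -⟩ := exists_ne3 (T w1 w1) 0 0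
    refine ⟨e, he, fun w hw hvw => ?_⟩
    have : w ∈ W0.filter (G.Adj w1) := by simp [hw, hvw]
    rw [hN] at this
    simp at this
  · refine ⟨T w1 w0, ?_, fun w hw hvw => ?_⟩
    · rw [mem_filter] at hw0
      exact h w0 hw0.1 hw0.2
    · rw [card_le_one.1 hd w (by simp [hw, hvw]) w0 hw0]

theorem main2 (G : SimpleGraph V) [DecidableRel G.Adj] (A : Finset V)
    (hA1 : ∀ y ∉ A, ∀ a ∈ A, ∀ b ∈ A, G.Adj y a → G.Adj y b → a ≠ b → G.Adj a b)
    (hA3 : ∀ a ∈ A, ∃ b ∈ A, G.Adj a b)
    (T0 : V → V → Fin 4) (hT0 : Good G A T0 A (fun _ => ∅) T0) (k : ℕ) :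
    ∀ (W : Finset V), (W \ A).card = k → A ⊆ W →
      (∀ u ∈ W \ A, ∀ w, G.Adj u w → w ∈ W) →
      (∀ w ∈ W, (W.filter (G.Adj w)).card ≤ 2) → ∃ T, Good G A T0 W (fun _ => ∅) T := by
  induction k using Nat.strong_induction_on with
  | _ k ih =>
  intro W hk hAW hcl hroom
  rcases (W \ A).eq_empty_or_nonempty with hS | ⟨z0, hz0S⟩
  · have hWA : W = A := subset_antisymm (sdiff_eq_empty_iff_subset.1 hS) hAW
    subst hWA
    exact ⟨T0, hT0⟩
  obtain ⟨C, hCS, hz0C, hCcl, hconn'⟩ := exists_comp G (W \ A) z0 hz0S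
  have hCA : ∀ u ∈ C, u ∉ A := fun u hu => (mem_sdiff.1 (hCS hu)).2
  have hCW : C ⊆ W := fun u hu => (mem_sdiff.1 (hCS hu)).1
  have hsub : (W \ C) \ A ⊆ W \ A := by
    intro y hy
    rw [mem_sdiff, mem_sdiff] at hy
    exact mem_sdiff.2 ⟨hy.1.1, hy.2⟩
  have hlt : ((W \ C) \ A).card < k := by
    rw [← hk]
    apply card_lt_card
    refine ⟨hsub, fun h => ?_⟩
    have := h hz0S
    rw [mem_sdiff, mem_sdiff] at this
    exact this.1.2 hz0C
  have hAWC : A ⊆ W \ C := fun a ha => mem_sdiff.2 ⟨hAW ha, fun h => hCA a h ha⟩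
  have hclC : ∀ u ∈ (W \ C) \ A, ∀ w, G.Adj u w → w ∈ W \ C := by
    intro u hu w huw
    refine mem_sdiff.2 ⟨hcl u (hsub hu) w huw, fun h => ?_⟩
    have := hCcl w h u (hsub hu) huw.symm
    rw [mem_sdiff, mem_sdiff] at hu
    exact hu.1.2 this
  have hroomsub : ∀ W', W' ⊆ W → ∀ w ∈ W', (W'.filter (G.Adj w)).card ≤ 2 := by
    intro W' hW' w hw
    exact (filter_card_le (G := G) hW' w).trans (hroom w (hW' hw))
  have hIH : ∃ T, Good G A T0 (W \ C) (fun _ => ∅) T :=
    ih _ hlt (W \ C) rfl hAWC hclC (hroomsub _ sdiff_subset)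
  have hpeel : ∀ E : Finset V, E.Nonempty → E ⊆ C → ∃ T, Good G A T0 (W \ E) (fun _ => ∅) T := by
    intro E hE hEC
    refine peel_gen (fun X => ∃ T, Good G A T0 X (fun _ => ∅) T) W C E hEC
      (fun E' hEE' hE'C => hconn' E' (hE.mono hEE') hE'C) ?_ hIH
    intro E' h1 h2 v hvC hvE ⟨u, hu, huv⟩ hex
    have h4 := sdiff_insert_eq (hCW hvC) hvE
    show ∃ T, Good G A T0 (W \ E') (fun _ => ∅) T
    rw [h4]
    apply addOne (by simp) (hCA v hvC) (by simp) _ _ hex
    · intro w hw hvw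
      have h5 := filter_card_lt (G := G) (W := W) (W' := W \ insert v E') sdiff_subset
        (hCW hvC) (by simp) hvw.symm
      have h6 := hroom w (mem_sdiff.1 hw).1
      rw [Fintype.card_fin]
      omega
    · have h5 := filter_card_lt (G := G) (W := W) (W' := W \ insert v E') sdiff_subset
        (hCW (h2 hu)) (by simp [hu]) huv.symm
      have := hroom v (hCW hvC)
      omega
  -- a vertex with at most one neighbour
  by_cases hlow : ∃ r ∈ C, (W.filter (G.Adj r)).card ≤ 1
  · obtain ⟨r, hrC, hr⟩ := hlow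
    have h1 := hpeel {r} (singleton_nonempty r) (by simpa using hrC)
    have h2 : W = insert r (W \ {r}) := by
      ext w
      simp only [mem_insert, mem_sdiff, mem_singleton]
      by_cases h : w = r
      · simp [h, hCW hrC]
      · simp [h]
    rw [h2]
    apply addOne (by simp) (hCA r hrC) (by simp) _ _ h1
    · intro w hw hrw
      have h5 := filter_card_lt (G := G) (W := W) (W' := W \ {r}) sdiff_subset
        (hCW hrC) (by simp) hrw.symm
      have h6 := hroom w (mem_sdiff.1 hw).1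
      rw [Fintype.card_fin]
      omega
    · exact (filter_card_le (G := G) (W := W) (W' := W \ {r}) sdiff_subset r).trans hr
  push Not at hlow
  have hdeg2 : ∀ u ∈ C, (W.filter (G.Adj u)).card = 2 := by
    intro u hu
    have h1 := hlow u hu
    have h2 := hroom u (hCW hu)
    omega
  have hother : ∀ u ∈ C, ∀ v ∈ W, G.Adj u v → ∃ w ∈ W, w ≠ v ∧ G.Adj u w ∧
      ∀ x ∈ W, G.Adj u x → x = v ∨ x = w := by
    intro u hu v hv huv
    have h1 : v ∈ W.filter (G.Adj u) := by rw [mem_filter]; exact ⟨hv, huv⟩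
    have h2 : ((W.filter (G.Adj u)).erase v).card = 1 := by
      rw [card_erase_of_mem h1, hdeg2 u hu]
    obtain ⟨w, hw⟩ := card_eq_one.1 h2
    have h3 : ∀ x, x ∈ (W.filter (G.Adj u)).erase v ↔ x = w := by
      intro x; rw [hw, mem_singleton]
    have h4 := (h3 w).2 rfl
    rw [mem_erase, mem_filter] at h4
    refine ⟨w, h4.2.1, h4.1, h4.2.2, fun x hx hux => ?_⟩
    by_cases h5 : x = v
    · exact Or.inl h5
    · exact Or.inr ((h3 x).1 (by rw [mem_erase, mem_filter]; exact ⟨h5, hx, hux⟩))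
  by_cases hadj : ∃ r1 ∈ C, ∃ r2 ∈ C, G.Adj r1 r2
  · obtain ⟨r1, hr1, r2, hr2, h12⟩ := hadj
    obtain ⟨w1, hw1W, hw1r2, hr1w1, hN1⟩ := hother r1 hr1 r2 (hCW hr2) h12
    obtain ⟨w2, hw2W, hw2r1, hr2w2, hN2⟩ := hother r2 hr2 r1 (hCW hr1) h12.symm
    have hne := h12.ne
    have hw1r1 : w1 ≠ r1 := hr1w1.ne'
    have hw2r2 : w2 ≠ r2 := hr2w2.ne'
    obtain ⟨T, hT⟩ := hpeel {r1, r2} ⟨r1, by simp⟩ (by
      intro x hx
      rw [mem_insert, mem_singleton] at hx
      rcases hx with rfl | rfl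
      · exact hr1
      · exact hr2)
    have hW : W = (W \ {r1, r2}) ∪ {r1, r2} := by
      rw [sdiff_union_of_subset]
      intro x hx
      rw [mem_insert, mem_singleton] at hx
      rcases hx with rfl | rfl
      · exact hCW hr1
      · exact hCW hr2
    have hw1' : w1 ∈ W \ {r1, r2} := by simp [hw1W, hw1r1, hw1r2]
    have hw2' : w2 ∈ W \ {r1, r2} := by simp [hw2W, hw2r1, hw2r2]
    have hN1' : ∀ w ∈ W \ {r1, r2}, G.Adj r1 w → w = w1 := by
      intro w hw h
      rw [mem_sdiff, mem_insert, mem_singleton, not_or] at hw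
      exact (hN1 w hw.1 h).resolve_left hw.2.2
    have hN2' : ∀ w ∈ W \ {r1, r2}, G.Adj r2 w → w = w2 := by
      intro w hw h
      rw [mem_sdiff, mem_insert, mem_singleton, not_or] at hw
      exact (hN2 w hw.1 h).resolve_left hw.2.1
    rw [hW]
    by_cases hww : w1 = w2
    · -- a triangle
      subst hww
      have hW0 : ∀ w ∈ W \ {r1, r2}, ¬ G.Adj w1 w := by
        intro w hw h
        rw [mem_sdiff, mem_insert, mem_singleton, not_or] at hw
        have h1 : ({r1, r2, w} : Finset V) ⊆ W.filter (G.Adj w1) := by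
          intro x hx
          simp only [mem_insert, mem_singleton] at hx
          rw [mem_filter]
          rcases hx with rfl | rfl | rfl
          · exact ⟨hCW hr1, hr1w1.symm⟩
          · exact ⟨hCW hr2, hr2w2.symm⟩
          · exact ⟨hw.1, h⟩
        have h2 : ({r1, r2, w} : Finset V).card = 3 := by
          rw [card_insert_of_notMem, card_insert_of_notMem, card_singleton]
          · simpa using Ne.symm hw.2.2
          · simp only [mem_insert, mem_singleton, not_or]
            exact ⟨hne, Ne.symm hw.2.1⟩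
        have h3 := card_le_card h1
        have h4 := hroom w1 hw1W
        omega
      obtain ⟨x1, hx1, -, -⟩ := exists_ne3 (T w1 w1) 0 0
      obtain ⟨x2, hx2, hx21, -⟩ := exists_ne3 (T w1 w1) x1 0
      refine addPair h12 (by simp) (by simp) (hCA r1 hr1) (hCA r2 hr2) hw1' hw2' hN1' hN2' T hT
        x2 x1 (T w1 w1) x2 x1 ?_ ?_ (fun _ => hx21) hx1 hx21.symm hx1 hx21.symm hx2 hx21 hx2
        hx2.symm hx1.symm
      · rintro w hw (rfl | h)
        · exact hx2
        · exact absurd h (hW0 w hw)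
      · rintro w hw (rfl | h)
        · exact hx1
        · exact absurd h (hW0 w hw)
    · have hd1 : ((W \ {r1, r2}).filter (G.Adj w1)).card ≤ 1 := by
        have h5 := filter_card_lt (G := G) (W := W) (W' := W \ {r1, r2}) sdiff_subset
          (hCW hr1) (by simp) hr1w1.symm
        have h6 := hroom w1 hw1W
        omega
      have hd2 : ((W \ {r1, r2}).filter (G.Adj w2)).card ≤ 1 := by
        have h5 := filter_card_lt (G := G) (W := W) (W' := W \ {r1, r2}) sdiff_subset
          (hCW hr2) (by simp) hr2w2.symm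
        have h6 := hroom w2 hw2W
        omega
      obtain ⟨e1, he1, he1'⟩ := other_edge T hd1 (fun w hw h =>
        (hT.inj w1 hw1' w1 hw1' w hw (Or.inl rfl) (Or.inr h) h.ne).symm)
      obtain ⟨e2, he2, he2'⟩ := other_edge T hd2 (fun w hw h =>
        (hT.inj w2 hw2' w2 hw2' w hw (Or.inl rfl) (Or.inr h) h.ne).symm)
      obtain ⟨s2, a1, a2, s3, b1, b2, s4, c1, c2, s5, d1, d2, d3, s6, f1, f2, f3, f4⟩ :=
        close7 e1 (T w1 w1) (T w2 w2) e2 he1 he2.symm
      refine addPair h12 (by simp) (by simp) (hCA r1 hr1) (hCA r2 hr2) hw1' hw2' hN1' hN2' T hT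
        s2 s3 s4 s5 s6 ?_ ?_ (fun h => absurd h hww) b1 b2 c2.symm d1.symm d3 f2.symm d2 c1
        f1.symm
      · rintro w hw (rfl | h)
        · exact a2
        · rw [he1' w hw h]; exact a1
      · rintro w hw (rfl | h)
        · exact f3
        · rw [he2' w hw h]; exact f4
  · push Not at hadj
    have hzA : ∀ w ∈ W, G.Adj z0 w → w ∈ A := by
      intro w hw h
      by_contra hwA
      exact hadj z0 hz0C w (hCcl z0 hz0C w (mem_sdiff.2 ⟨hw, hwA⟩) h) h
    obtain ⟨a, b, hne, hab'⟩ := card_eq_two.1 (hdeg2 z0 hz0C)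
    have ha' : a ∈ W.filter (G.Adj z0) := by rw [hab']; simp
    have hb' : b ∈ W.filter (G.Adj z0) := by rw [hab']; simp
    rw [mem_filter] at ha' hb'
    obtain ⟨haW, hza⟩ := ha'
    obtain ⟨hbW, hzb⟩ := hb'
    have ha := hzA a haW hza
    have hb := hzA b hbW hzb
    have hab : G.Adj a b := hA1 z0 (hCA z0 hz0C) a ha b hb hza hzb hne
    obtain ⟨T, hT⟩ := hpeel {z0} (singleton_nonempty z0) (by simpa using hz0C)
    have h2 : W = insert z0 (W \ {z0}) := by
      ext w
      simp only [mem_insert, mem_sdiff, mem_singleton]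
      by_cases h : w = z0
      · simp [h, hCW hz0C]
      · simp [h]
    have haW' : a ∈ W \ {z0} := by simp [haW, hza.ne']
    have hbW' : b ∈ W \ {z0} := by simp [hbW, hzb.ne']
    have hNa : ∀ w ∈ W \ {z0}, G.Adj a w → w = b := by
      intro w hw h
      have h5 := filter_card_lt (G := G) (W := W) (W' := W \ {z0}) sdiff_subset
        (hCW hz0C) (by simp) hza.symm
      have h6 := hroom a haW
      exact card_le_one.1 (show ((W \ {z0}).filter (G.Adj a)).card ≤ 1 by omega) w
        (by rw [mem_filter]; exact ⟨hw, h⟩) b (by rw [mem_filter]; exact ⟨hbW', hab⟩)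
    have hNb : ∀ w ∈ W \ {z0}, G.Adj b w → w = a := by
      intro w hw h
      have h5 := filter_card_lt (G := G) (W := W) (W' := W \ {z0}) sdiff_subset
        (hCW hz0C) (by simp) hzb.symm
      have h6 := hroom b hbW
      exact card_le_one.1 (show ((W \ {z0}).filter (G.Adj b)).card ≤ 1 by omega) w
        (by rw [mem_filter]; exact ⟨hw, h⟩) a (by rw [mem_filter]; exact ⟨haW', hab.symm⟩)
    have hzcase : ∀ w ∈ W \ {z0}, G.Adj z0 w → w = a ∨ w = b := by
      intro w hw h
      have h1 : w ∈ W.filter (G.Adj z0) := by rw [mem_filter]; exact ⟨(mem_sdiff.1 hw).1, h⟩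
      rw [hab'] at h1
      simpa using h1
    have hαβ : T a a ≠ T b b := hT.vert a haW' b hbW' hab
    have hγα : T a b ≠ T a a := hT.inj a haW' b hbW' a haW' (Or.inr hab) (Or.inl rfl) hne.symm
    have hγβ : T a b ≠ T b b := by
      rw [hT.symm a haW' b hbW' hab]
      exact hT.inj b hbW' a haW' b hbW' (Or.inr hab.symm) (Or.inl rfl) hne
    have hγs := hT.symm a haW' b hbW' hab
    rw [h2]
    refine extend1 hT z0 (by simp) (hCA z0 hz0C) rfl (T a b)
      (fun w => if w = a then T b b else T a a) ?_ ?_ ?_ ?_ ?_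
    · intro w hw h
      rcases hzcase w hw h with rfl | rfl
      · simpa using hγβ.symm
      · simpa [hne.symm] using hγα.symm
    · intro w hw w' hw' h h' hww
      rcases hzcase w hw h with rfl | rfl <;> rcases hzcase w' hw' h' with rfl | rfl
      · exact absurd rfl hww
      · simpa [hne.symm] using hαβ.symm
      · simpa [hne.symm] using hαβ
      · exact absurd rfl hww
    · intro w hw h w' hw' hww
      rcases hzcase w hw h with rfl | rfl
      · simp only [if_true]
        rcases hww with rfl | hww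
        · exact hαβ.symm
        · rw [hNa w' hw' hww]; exact hγβ.symm
      · simp only [hne.symm, if_false]
        rcases hww with rfl | hww
        · exact hαβ
        · rw [hNb w' hw' hww, ← hγs]; exact hγα.symm
    · intro w _ _
      simp
    · intro w hw h
      rcases hzcase w hw h with rfl | rfl
      · exact hγα
      · exact hγβ

theorem main1 (G : SimpleGraph V) [DecidableRel G.Adj] (A : Finset V)
    (T0 : V → V → Fin 3) (hT0 : Good G A T0 A (fun _ => ∅) T0) (k : ℕ) :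
    ∀ (W : Finset V), (W \ A).card = k → A ⊆ W →
      (∀ w ∈ W, (W.filter (G.Adj w)).card ≤ 1) → ∃ T, Good G A T0 W (fun _ => ∅) T := by
  induction k with
  | zero =>
    intro W hk hAW _
    have hWA : W = A := subset_antisymm (sdiff_eq_empty_iff_subset.1 (card_eq_zero.1 hk)) hAW
    subst hWA
    exact ⟨T0, hT0⟩
  | succ k ih =>
    intro W hk hAW hroom
    obtain ⟨v, hv⟩ : (W \ A).Nonempty := by rw [← card_pos]; omega
    rw [mem_sdiff] at hv
    have h2 : W = insert v (W \ {v}) := by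
      ext w
      simp only [mem_insert, mem_sdiff, mem_singleton]
      by_cases h : w = v
      · simp [h, hv.1]
      · simp [h]
    have hA' : A ⊆ W \ {v} := by
      intro a ha
      rw [mem_sdiff, mem_singleton]
      exact ⟨hAW ha, fun h => hv.2 (h ▸ ha)⟩
    have h3 : ((W \ {v}) \ A).card = k := by
      have : (W \ {v}) \ A = (W \ A).erase v := by
        ext w
        simp only [mem_sdiff, mem_erase, mem_singleton]
        tauto
      rw [this, card_erase_of_mem (mem_sdiff.2 hv)]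
      omega
    have h4 := ih (W \ {v}) h3 hA' (fun w hw =>
      (filter_card_le (G := G) sdiff_subset w).trans (hroom w (mem_sdiff.1 hw).1))
    rw [h2]
    apply addOne (by simp) hv.2 (by simp) _ _ h4
    · intro w hw hrw
      have h5 := filter_card_lt (G := G) (W := W) (W' := W \ {v}) sdiff_subset
        hv.1 (by simp) hrw.symm
      have h6 := hroom w (mem_sdiff.1 hw).1
      rw [Fintype.card_fin]
      omega
    · exact (filter_card_le (G := G) (W := W) (W' := W \ {v}) sdiff_subset v).trans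
        (hroom v hv.1)

end MP_db9399_co.Sub3
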