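import Mathlib
import Pool.Agent.Work.MP_db9399_co_helper38.Two

/-! Maximum degree at most three with at least six colours. -/

namespace MP_db9399_co.Sub3

open Finset

variable {V : Type*} [DecidableEq V] {κ : Type*}

/-- Adding one vertex, with information on the new colouring. -/
theorem extend1' {G : SimpleGraph V} {A : Finset V} {T0 : V → V → κ} {W0 : Finset V}
    {T : V → V → κ} (hT : Good G A T0 W0 (fun _ => ∅) T) (v : V)
    (hvW : v ∉ W0) (hvA : v ∉ A) (X : κ) (f : V → κ)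
    (h1 : ∀ w ∈ W0, G.Adj v w → f w ≠ X)
    (h2 : ∀ w ∈ W0, ∀ w' ∈ W0, G.Adj v w → G.Adj v w' → w ≠ w' → f w ≠ f w')
    (h3 : ∀ w ∈ W0, G.Adj v w → ∀ w' ∈ W0, (w' = w ∨ G.Adj w w') → f w ≠ T w w')
    (h5 : ∀ w ∈ W0, G.Adj v w → X ≠ T w w) :
    ∃ T', Good G A T0 (insert v W0) (fun _ => ∅) T' ∧ (∀ w ∈ W0, T' w w = T w w) ∧
      ∀ w ∈ W0, T' v w = f w := by
  have hins : insert v W0 = W0 ∪ {v} := by
    ext x; simp
  rw [hins]
  have hne : ∀ w ∈ W0, w ≠ v := fun w hw h => hvW (h ▸ hw)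
  refine ⟨_, glue hT {v} ?_ (fun a b => if a = v then (if b = v then X else f b) else f a)
    ?_ ?_ ?_ ?_ ?_ ?_ ?_ ?_, ?_, ?_⟩
  · intro u hu; rw [mem_singleton] at hu; rw [hu]; exact hvA
  · intro u hu w hw huw
    rw [mem_singleton] at hu; subst hu
    simp only [if_true]
  · intro u hu w hw w' hw' huw huw' hww
    rw [mem_singleton] at hu; subst hu
    rw [mem_union, mem_singleton] at hw hw'
    simp only [if_true]
    by_cases hwu : w = u
    · have hwu' : w' ≠ u := fun h => hww (hwu.trans h.symm)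
      rw [if_pos hwu, if_neg hwu']
      exact (h1 w' (hw'.resolve_right hwu') (huw'.resolve_left hwu')).symm
    · rw [if_neg hwu]
      by_cases hwu' : w' = u
      · rw [if_pos hwu']
        exact h1 w (hw.resolve_right hwu) (huw.resolve_left hwu)
      · rw [if_neg hwu']
        exact h2 w (hw.resolve_right hwu) w' (hw'.resolve_right hwu') (huw.resolve_left hwu)
          (huw'.resolve_left hwu') hww
  · intro z _ u hu w hw _ _ hne'
    rw [mem_singleton] at hu hw
    exact absurd (hu.trans hw.symm) hne'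
  · intro z hz u hu w hw hzu hzw
    rw [mem_singleton] at hu; subst hu
    rw [if_neg (hne z hz)]
    exact h3 z hz hzu.symm w hw hzw
  · intro z hz u hu hzu
    simp
  · intro u hu w hw huw
    rw [mem_singleton] at hu hw
    exact absurd (hu.trans hw.symm) huw.ne
  · intro u hu w hw huw
    rw [mem_singleton] at hu; subst hu
    simp only [if_true]
    exact h5 w hw huw
  · intro u _; rfl
  · intro w hw
    simp [hne w hw]
  · intro w hw
    simp [hne w hw]

theorem exists_avoid [DecidableEq κ] {s : Finset κ} (l : Finset κ) (h : l.card < s.card) :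
    ∃ b ∈ s, b ∉ l := by
  by_contra hcon
  push Not at hcon
  have := card_le_card hcon
  omega

theorem exists_avoid' [Fintype κ] [DecidableEq κ] (l : Finset κ) (h : l.card < Fintype.card κ) :
    ∃ b : κ, b ∉ l := by
  obtain ⟨b, -, hb⟩ := exists_avoid (s := (univ : Finset κ)) l (by rwa [card_univ])
  exact ⟨b, hb⟩

/-- Adding a vertex with at most two coloured neighbours, keeping one edge colour out of
`{p, q}`. -/
theorem addMid [Fintype κ] [DecidableEq κ] (hκ : 6 ≤ Fintype.card κ) {G : SimpleGraph V}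
    [DecidableRel G.Adj] {A : Finset V}
    {T0 : V → V → κ} {W0 : Finset V} {v a b : V} (hv : v ∉ W0) (hvA : v ∉ A)
    (ha : a ∈ W0) (hb : b ∈ W0) (hN : ∀ w ∈ W0, G.Adj v w → w = a ∨ w = b)
    (hroom : ∀ w ∈ W0, (W0.filter (G.Adj w)).card ≤ 3) (hrooma : (W0.filter (G.Adj a)).card ≤ 2)
    (p q : κ) (T : V → V → κ) (hT : Good G A T0 W0 (fun _ => ∅) T) :
    ∃ T', Good G A T0 (insert v W0) (fun _ => ∅) T' ∧ (∀ w ∈ W0, T' w w = T w w) ∧
      T' v a ≠ p ∧ T' v a ≠ q := by
  have h1 := card_Av G W0 (fun _ => ∅) T a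
  have h2 := card_Av G W0 (fun _ => ∅) T b
  simp only [card_empty, add_zero] at h1 h2
  have h3 := hroom b hb
  obtain ⟨fa, hfa, hfa'⟩ := exists_avoid (s := Av G W0 (fun _ => ∅) T a) {p, q}
    (by have : ({p, q} : Finset κ).card ≤ 2 := card_le_two
        omega)
  obtain ⟨fb, hfb, hfb'⟩ := exists_avoid (s := Av G W0 (fun _ => ∅) T b) {fa}
    (by rw [card_singleton]; omega)
  obtain ⟨X, hX⟩ := exists_avoid' ({fa, fb, T a a, T b b} : Finset κ)
    (by have : ({fa, fb, T a a, T b b} : Finset κ).card ≤ 4 := card_le_four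
        omega)
  simp only [mem_insert, mem_singleton, not_or] at hfa' hfb' hX
  rw [mem_Av] at hfa hfb
  obtain ⟨T', hT', h4, h5⟩ := extend1' hT v hv hvA X (fun w => if w = a then fa else fb)
    (by
      intro w _ _
      split_ifs
      · exact Ne.symm hX.1
      · exact Ne.symm hX.2.1)
    (by
      intro w hw w' hw' h h' hne
      rcases hN w hw h with h1 | h1 <;> rcases hN w' hw' h' with h1' | h1'
      · exact absurd (h1.trans h1'.symm) hne
      · have : w' ≠ a := fun h2 => hne (h1.trans h2.symm)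
        rw [if_pos h1, if_neg this]; exact Ne.symm hfb'
      · have : w ≠ a := fun h2 => hne (h2.trans h1'.symm)
        rw [if_pos h1', if_neg this]; exact hfb'
      · exact absurd (h1.trans h1'.symm) hne)
    (by
      intro w hw h w' hw' hww'
      split_ifs with h1
      · subst h1; exact hfa.2 w' hw' hww'
      · have h2 := (hN w hw h).resolve_left h1
        subst h2; exact hfb.2 w' hw' hww')
    (by
      intro w hw h
      rcases hN w hw h with rfl | rfl
      · exact hX.2.2.1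
      · exact hX.2.2.2)
  refine ⟨T', hT', h4, ?_, ?_⟩
  · rw [h5 a ha]; simpa using hfa'.1
  · rw [h5 a ha]; simpa using hfa'.2

/-- Adding a vertex with three coloured neighbours when a colour `X` is available at the vertex but
not at the edge to `w1`. -/
theorem addTop [Fintype κ] [DecidableEq κ] (hκ : 6 ≤ Fintype.card κ) {G : SimpleGraph V}
    [DecidableRel G.Adj] {A : Finset V}
    {T0 : V → V → κ} {W0 : Finset V} {v w1 w2 w3 : V} (hv : v ∉ W0) (hvA : v ∉ A)
    (hw12 : w1 ≠ w2) (hw13 : w1 ≠ w3) (hw23 : w2 ≠ w3)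
    (hN : ∀ w ∈ W0, G.Adj v w → w = w1 ∨ w = w2 ∨ w = w3)
    (hr1 : (W0.filter (G.Adj w1)).card ≤ 2) (hr2 : (W0.filter (G.Adj w2)).card ≤ 2)
    (hr3 : (W0.filter (G.Adj w3)).card ≤ 2)
    (X : κ) (T : V → V → κ) (hT : Good G A T0 W0 (fun _ => ∅) T)
    (hX1 : X ≠ T w1 w1) (hX2 : X ≠ T w2 w2) (hX3 : X ≠ T w3 w3)
    (hX : X ∉ Av G W0 (fun _ => ∅) T w1) :
    ∃ T', Good G A T0 (insert v W0) (fun _ => ∅) T' := by
  have h1 := card_Av G W0 (fun _ => ∅) T w1
  have h2 := card_Av G W0 (fun _ => ∅) T w2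
  have h3 := card_Av G W0 (fun _ => ∅) T w3
  simp only [card_empty, add_zero] at h1 h2 h3
  obtain ⟨f2, hf2, hf2'⟩ := exists_avoid (s := Av G W0 (fun _ => ∅) T w2) {X}
    (by rw [card_singleton]; omega)
  obtain ⟨f3, hf3, hf3'⟩ := exists_avoid (s := Av G W0 (fun _ => ∅) T w3) {X, f2}
    (by have : ({X, f2} : Finset κ).card ≤ 2 := card_le_two
        omega)
  obtain ⟨f1, hf1, hf1'⟩ := exists_avoid (s := Av G W0 (fun _ => ∅) T w1) {f2, f3}
    (by have : ({f2, f3} : Finset κ).card ≤ 2 := card_le_two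
        omega)
  have hf1X : f1 ≠ X := fun h => hX (h ▸ hf1)
  simp only [mem_insert, mem_singleton, not_or] at hf1' hf2' hf3'
  rw [mem_Av] at hf1 hf2 hf3
  obtain ⟨T', hT', -, -⟩ := extend1' hT v hv hvA X
    (fun w => if w = w1 then f1 else if w = w2 then f2 else f3)
    (by
      intro w _ _
      split_ifs
      · exact hf1X
      · exact hf2'
      · exact hf3'.1)
    (by
      intro w hw w' hw' h h' hne
      rcases hN w hw h with rfl | rfl | rfl <;> rcases hN w' hw' h' with rfl | rfl | rfl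
      · exact absurd rfl hne
      · simpa [hw12.symm] using hf1'.1
      · simpa [hw13.symm, hw23.symm] using hf1'.2
      · simpa [hw12.symm] using Ne.symm hf1'.1
      · exact absurd rfl hne
      · simpa [hw12.symm, hw13.symm, hw23.symm] using Ne.symm hf3'.2
      · simpa [hw13.symm, hw23.symm] using Ne.symm hf1'.2
      · simpa [hw12.symm, hw13.symm, hw23.symm] using hf3'.2
      · exact absurd rfl hne)
    (by
      intro w hw h w' hw' hww'
      rcases hN w hw h with rfl | rfl | rfl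
      · simpa using hf1.2 w' hw' hww'
      · simpa [hw12.symm] using hf2.2 w' hw' hww'
      · simpa [hw13.symm, hw23.symm] using hf3.2 w' hw' hww')
    (by
      intro w hw h
      rcases hN w hw h with rfl | rfl | rfl
      · exact hX1
      · exact hX2
      · exact hX3)
  exact ⟨T', hT'⟩

/-- Adding a vertex with at most two coloured neighbours. -/
theorem addLow6 [Fintype κ] [DecidableEq κ] (hκ : 6 ≤ Fintype.card κ) {G : SimpleGraph V}
    [DecidableRel G.Adj] {A : Finset V}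
    {T0 : V → V → κ} {W0 : Finset V} {v : V} (hv : v ∉ W0) (hvA : v ∉ A)
    (hroom : ∀ w ∈ insert v W0, ((insert v W0).filter (G.Adj w)).card ≤ 3)
    (hdeg : (W0.filter (G.Adj v)).card ≤ 2) (hE : ∃ T, Good G A T0 W0 (fun _ => ∅) T) :
    ∃ T', Good G A T0 (insert v W0) (fun _ => ∅) T' := by
  obtain ⟨T, hT⟩ := hE
  have hroom' : ∀ w ∈ W0, (W0.filter (G.Adj w)).card ≤ 3 := fun w hw =>
    (filter_card_le (G := G) (subset_insert v W0) w).trans (hroom w (mem_insert_of_mem hw))
  have hrooma : ∀ w ∈ W0, G.Adj v w → (W0.filter (G.Adj w)).card ≤ 2 := by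
    intro w hw hvw
    have h1 := filter_card_lt (G := G) (subset_insert v W0) (mem_insert_self v W0) hv hvw.symm
    have h2 := hroom w (mem_insert_of_mem hw)
    omega
  rcases (W0.filter (G.Adj v)).eq_empty_or_nonempty with hN | ⟨w1, hw1⟩
  · have hno : ∀ w ∈ W0, ¬ G.Adj v w := by
      intro w hw hvw
      have : w ∈ W0.filter (G.Adj v) := by simp [hw, hvw]
      rw [hN] at this
      simp at this
    exact extend1 hT v hv hvA rfl (T v v) (fun _ => T v v) (fun w hw h => absurd h (hno w hw))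
      (fun w hw _ _ h => absurd h (hno w hw)) (fun w hw h => absurd h (hno w hw))
      (fun w hw h => absurd h (hno w hw)) (fun w hw h => absurd h (hno w hw))
  · obtain ⟨w2, hw2, hN⟩ : ∃ w2 ∈ W0.filter (G.Adj v), ∀ w ∈ W0.filter (G.Adj v),
        w = w1 ∨ w = w2 := by
      rcases ((W0.filter (G.Adj v)).erase w1).eq_empty_or_nonempty with h | ⟨w2, hw2⟩
      · refine ⟨w1, hw1, fun w hw => ?_⟩
        by_contra hne
        have : w ∈ (W0.filter (G.Adj v)).erase w1 := mem_erase.2 ⟨fun h => hne (Or.inl h), hw⟩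
        rw [h] at this
        simp at this
      · refine ⟨w2, mem_of_mem_erase hw2, fun w hw => ?_⟩
        by_contra hne
        simp only [not_or] at hne
        have h1 : {w, w2} ⊆ (W0.filter (G.Adj v)).erase w1 := by
          intro x hx
          rw [mem_insert, mem_singleton] at hx
          rcases hx with rfl | rfl
          · exact mem_erase.2 ⟨hne.1, hw⟩
          · exact hw2
        have h2 := card_le_card h1
        rw [card_pair hne.2, card_erase_of_mem hw1] at h2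
        omega
    rw [mem_filter] at hw1 hw2
    obtain ⟨T', hT', -⟩ := addMid hκ hv hvA hw1.1 hw2.1
      (fun w hw h => hN w (by simp [hw, h])) hroom' (hrooma w1 hw1.1 hw1.2) (T v v) (T v v) T hT
    exact ⟨T', hT'⟩

theorem main6 [Fintype κ] [DecidableEq κ] (hκ : 6 ≤ Fintype.card κ) (G : SimpleGraph V)
    [DecidableRel G.Adj] (A : Finset V)
    (hA1 : ∀ y ∉ A, ∀ a ∈ A, ∀ b ∈ A, G.Adj y a → G.Adj y b → a ≠ b → G.Adj a b)
    (hA2 : ∀ a ∈ A, ∀ b ∈ A, ∀ c ∈ A, G.Adj a b → G.Adj a c → b = c)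
    (T0 : V → V → κ) (hT0 : Good G A T0 A (fun _ => ∅) T0) (k : ℕ) :
    ∀ (W : Finset V), (W \ A).card = k → A ⊆ W →
      (∀ u ∈ W \ A, ∀ w, G.Adj u w → w ∈ W) →
      (∀ w ∈ W, (W.filter (G.Adj w)).card ≤ 3) → ∃ T, Good G A T0 W (fun _ => ∅) T := by
  induction k using Nat.strong_induction_on with
  | _ k ih =>
  intro W hk hAW hcl hroom
  rcases (W \ A).eq_empty_or_nonempty with hS | ⟨z0, hz0S⟩
  · have hWA : W = A := subset_antisymm (sdiff_eq_empty_iff_subset.1 hS) hAW
    subst hWA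
    exact ⟨T0, hT0⟩
  obtain ⟨C, hCS, hz0C, hCcl, hconn'⟩ := exists_comp G (W \ A) z0 hz0S
  have hCA : ∀ u ∈ C, u ∉ A := fun u hu => (mem_sdiff.1 (hCS hu)).2
  have hCW : C ⊆ W := fun u hu => (mem_sdiff.1 (hCS hu)).1
  have hsub : (W \ C) \ A ⊆ W \ A := by
    intro y hy
    rw [mem_sdiff, mem_sdiff] at hy
    exact mem_sdiff.2 ⟨hy.1.1, hy.2⟩
  have hlt : ((W \ C) \ A).card < k := by
    rw [← hk]
    apply card_lt_card
    refine ⟨hsub, fun h => ?_⟩
    have := h hz0S
    rw [mem_sdiff, mem_sdiff] at this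
    exact this.1.2 hz0C
  have hAWC : A ⊆ W \ C := fun a ha => mem_sdiff.2 ⟨hAW ha, fun h => hCA a h ha⟩
  have hclC : ∀ u ∈ (W \ C) \ A, ∀ w, G.Adj u w → w ∈ W \ C := by
    intro u hu w huw
    refine mem_sdiff.2 ⟨hcl u (hsub hu) w huw, fun h => ?_⟩
    have := hCcl w h u (hsub hu) huw.symm
    rw [mem_sdiff, mem_sdiff] at hu
    exact hu.1.2 this
  have hroomsub : ∀ W', W' ⊆ W → ∀ w ∈ W', (W'.filter (G.Adj w)).card ≤ 3 := by
    intro W' hW' w hw
    exact (filter_card_le (G := G) hW' w).trans (hroom w (hW' hw))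
  have hIH : ∃ T, Good G A T0 (W \ C) (fun _ => ∅) T :=
    ih _ hlt (W \ C) rfl hAWC hclC (hroomsub _ sdiff_subset)
  have hpeel : ∀ E : Finset V, E.Nonempty → E ⊆ C → ∃ T, Good G A T0 (W \ E) (fun _ => ∅) T := by
    intro E hE hEC
    refine peel_gen (fun X => ∃ T, Good G A T0 X (fun _ => ∅) T) W C E hEC
      (fun E' hEE' hE'C => hconn' E' (hE.mono hEE') hE'C) ?_ hIH
    intro E' h1 h2 v hvC hvE ⟨u, hu, huv⟩ hex
    have h4 := sdiff_insert_eq (hCW hvC) hvE
    show ∃ T, Good G A T0 (W \ E') (fun _ => ∅) T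
    rw [h4]
    apply addLow6 hκ (by simp) (hCA v hvC) _ _ hex
    · rw [← h4]
      exact hroomsub _ sdiff_subset
    · have h5 := filter_card_lt (G := G) (W := W) (W' := W \ insert v E') sdiff_subset
        (hCW (h2 hu)) (by simp [hu]) huv.symm
      have := hroom v (hCW hvC)
      omega
  -- a vertex with at most two neighbours
  by_cases hlow : ∃ r ∈ C, (W.filter (G.Adj r)).card ≤ 2
  · obtain ⟨r, hrC, hr⟩ := hlow
    have h1 := hpeel {r} (singleton_nonempty r) (by simpa using hrC)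
    have h2 : W = insert r (W \ {r}) := by
      ext w
      simp only [mem_insert, mem_sdiff, mem_singleton]
      by_cases h : w = r
      · simp [h, hCW hrC]
      · simp [h]
    rw [h2]
    apply addLow6 hκ (by simp) (hCA r hrC) _ _ h1
    · rw [← h2]; exact hroom
    · exact (filter_card_le (G := G) (W := W) (W' := W \ {r}) sdiff_subset r).trans hr
  push Not at hlow
  have hdeg3 : ∀ u ∈ C, (W.filter (G.Adj u)).card = 3 := by
    intro u hu
    have h1 := hlow u hu
    have h2 := hroom u (hCW hu)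
    omega
  have hA2' : ∀ u ∈ C, (A.filter (G.Adj u)).card ≤ 2 := by
    intro u hu
    by_contra hcon
    obtain ⟨a, ha, b, hb, c, hc, hab, hac, hbc⟩ := two_lt_card.1 (not_le.1 hcon)
    rw [mem_filter] at ha hb hc
    have h1 := hA1 u (hCA u hu) a ha.1 b hb.1 ha.2 hb.2 hab
    have h2 := hA1 u (hCA u hu) a ha.1 c hc.1 ha.2 hc.2 hac
    exact hbc (hA2 a ha.1 b hb.1 c hc.1 h1 h2)
  obtain ⟨r, hrC, hzr⟩ : ∃ r ∈ C, G.Adj z0 r := by
    have h1 : W.filter (G.Adj z0) ⊆ A.filter (G.Adj z0) ∪ C.filter (G.Adj z0) := by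
      intro w hw
      rw [mem_filter] at hw
      rw [mem_union, mem_filter, mem_filter]
      by_cases h : w ∈ A
      · exact Or.inl ⟨h, hw.2⟩
      · exact Or.inr ⟨hCcl z0 hz0C w (mem_sdiff.2 ⟨hw.1, h⟩) hw.2, hw.2⟩
    have h2 := (card_le_card h1).trans (card_union_le _ _)
    rw [hdeg3 z0 hz0C] at h2
    have h3 := hA2' z0 hz0C
    obtain ⟨w, hw⟩ := card_pos.1 (show 0 < (C.filter (G.Adj z0)).card by omega)
    rw [mem_filter] at hw
    exact ⟨w, hw.1, hw.2⟩
  have hne := hzr.ne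
  -- the two other neighbours
  have hother : ∀ u ∈ C, ∀ v ∈ W, G.Adj u v → ∃ a ∈ W, ∃ b ∈ W, a ≠ v ∧ b ≠ v ∧ a ≠ b ∧
      G.Adj u a ∧ G.Adj u b ∧ ∀ x ∈ W, G.Adj u x → x = v ∨ x = a ∨ x = b := by
    intro u hu v hv huv
    have h1 : v ∈ W.filter (G.Adj u) := by rw [mem_filter]; exact ⟨hv, huv⟩
    have h2 : ((W.filter (G.Adj u)).erase v).card = 2 := by
      rw [card_erase_of_mem h1, hdeg3 u hu]
    obtain ⟨a, b, hab, hw⟩ := card_eq_two.1 h2
    have h3 : ∀ x, x ∈ (W.filter (G.Adj u)).erase v ↔ x = a ∨ x = b := by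
      intro x; rw [hw, mem_insert, mem_singleton]
    have h4 := (h3 a).2 (Or.inl rfl)
    have h5 := (h3 b).2 (Or.inr rfl)
    rw [mem_erase, mem_filter] at h4 h5
    refine ⟨a, h4.2.1, b, h5.2.1, h4.1, h5.1, hab, h4.2.2, h5.2.2, fun x hx hux => ?_⟩
    by_cases h6 : x = v
    · exact Or.inl h6
    · exact Or.inr ((h3 x).1 (by rw [mem_erase, mem_filter]; exact ⟨h6, hx, hux⟩))
  obtain ⟨a, haW, b, hbW, haz, hbz, hab, hra, hrb, hNr⟩ := hother r hrC z0 (hCW hz0C) hzr.symm
  obtain ⟨w2, hw2W, w3, hw3W, hw2r, hw3r, hw23, hzw2, hzw3, hNz⟩ := hother z0 hz0C r (hCW hrC) hzr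
  obtain ⟨T, hT⟩ := hpeel {r, z0} ⟨r, by simp⟩ (by
    intro x hx
    rw [mem_insert, mem_singleton] at hx
    rcases hx with rfl | rfl
    · exact hrC
    · exact hz0C)
  have e1 : W \ {z0} = insert r (W \ {r, z0}) := by
    have := sdiff_insert_eq (W := W) (E := {z0}) (v := r) (hCW hrC) (by simp [hne.symm])
    exact this
  have e2 : W = insert z0 (W \ {z0}) := by
    ext w
    simp only [mem_insert, mem_sdiff, mem_singleton]
    by_cases h : w = z0
    · simp [h, hCW hz0C]
    · simp [h]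
  have haW' : a ∈ W \ {r, z0} := by simp [haW, haz, hra.ne']
  have hbW' : b ∈ W \ {r, z0} := by simp [hbW, hbz, hrb.ne']
  have hw2W' : w2 ∈ W \ {r, z0} := by simp [hw2W, hw2r, hzw2.ne']
  have hw3W' : w3 ∈ W \ {r, z0} := by simp [hw3W, hw3r, hzw3.ne']
  obtain ⟨T', hT', h1, h2, h3⟩ := addMid hκ (v := r) (a := a) (b := b) (by simp) (hCA r hrC)
    haW' hbW' (by
      intro w hw h
      rw [mem_sdiff, mem_insert, mem_singleton, not_or] at hw
      exact (hNr w hw.1 h).resolve_left hw.2.2) (hroomsub _ sdiff_subset)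
    (by
      have h5 := filter_card_lt (G := G) (W := W) (W' := W \ {r, z0}) sdiff_subset
        (hCW hrC) (by simp) hra.symm
      have h6 := hroom a haW
      omega) (T w2 w2) (T w3 w3) T hT
  rw [← e1] at hT'
  have hlt2 : ∀ w ∈ W, G.Adj z0 w → ((W \ {z0}).filter (G.Adj w)).card ≤ 2 := by
    intro w hw hzw
    have h5 := filter_card_lt (G := G) (W := W) (W' := W \ {z0}) sdiff_subset
      (hCW hz0C) (by simp) hzw.symm
    have h6 := hroom w hw
    omega
  have haW1 : a ∈ W \ {z0} := by simp [haW, haz]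
  have hrW1 : r ∈ W \ {z0} := by simp [hCW hrC, hne.symm]
  rw [e2]
  refine addTop hκ (v := z0) (w1 := r) (w2 := w2) (w3 := w3) (by simp) (hCA z0 hz0C)
    (Ne.symm hw2r) (Ne.symm hw3r) hw23 ?_ (hlt2 r (hCW hrC) hzr) (hlt2 w2 hw2W hzw2)
    (hlt2 w3 hw3W hzw3) (T' r a) T' hT' ?_ ?_ ?_ ?_
  · intro w hw h
    exact hNz w (mem_sdiff.1 hw).1 h
  · exact hT'.inj r hrW1 a haW1 r hrW1 (Or.inr hra) (Or.inl rfl) hra.ne'
  · rw [h1 w2 hw2W']; exact h2
  · rw [h1 w3 hw3W']; exact h3
  · intro h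
    exact (mem_Av.1 h).2 a haW1 (Or.inr hra) rfl

end MP_db9399_co.Sub3
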