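import Mathlib
import Pool.Agent.Work.MP_db9399_co.Defs
import Pool.Agent.Work.MP_db9399_co_helper38.Two
import Pool.Agent.Work.MP_db9399_co_helper38.Six

/-! Q1 for graphs with maximum degree at most three. -/

namespace MP_db9399_co.Sub3

open Finset

theorem edist_two {V : Type*} (G : SimpleGraph V) {u v w : V} (h1 : G.Adj u v) (h2 : G.Adj v w) :
    ¬ (3 ≤ G.edist u w) := by
  intro h
  have h3 : G.edist u w ≤ ((SimpleGraph.Walk.cons h1 (SimpleGraph.Walk.cons h2
    SimpleGraph.Walk.nil)).length : ℕ∞) := SimpleGraph.edist_le _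
  simp only [SimpleGraph.Walk.length_cons, SimpleGraph.Walk.length_nil] at h3
  have h4 := h.trans h3
  norm_num at h4

theorem edist_one {V : Type*} (G : SimpleGraph V) {u v : V} (h1 : G.Adj u v) :
    ¬ (3 ≤ G.edist u v) := by
  intro h
  have h3 : G.edist u v ≤ ((SimpleGraph.Walk.cons h1 SimpleGraph.Walk.nil).length : ℕ∞) :=
    SimpleGraph.edist_le _
  simp only [SimpleGraph.Walk.length_cons, SimpleGraph.Walk.length_nil] at h3
  have h4 := h.trans h3
  norm_num at h4

theorem interface {V : Type*} [Fintype V] [DecidableEq V] {κ : Type*} (G : SimpleGraph V)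
    (H : G.Subgraph) (hH : IsDistThreeMatching H)
    (hmain : ∀ (A : Finset V) (T0 : V → V → κ), Good G A T0 A (fun _ => ∅) T0 →
      (∀ y ∉ A, ∀ a ∈ A, ∀ b ∈ A, G.Adj y a → G.Adj y b → a ≠ b → G.Adj a b) →
      (∀ a ∈ A, ∀ b ∈ A, ∀ c ∈ A, G.Adj a b → G.Adj a c → b = c) →
      (∀ a ∈ A, ∃ b ∈ A, G.Adj a b) →
      ∃ T, Good G A T0 univ (fun _ => ∅) T) :
    EveryTotalColoringExtends H κ := by
  classical
  intro c0 t0 h0
  obtain ⟨hM, hdist⟩ := hH
  let A : Finset V := univ.filter (fun v => v ∈ H.verts)
  have hA : ∀ v, v ∈ A ↔ v ∈ H.verts := by intro v; simp [A]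
  have hadj : ∀ u ∈ A, ∀ v ∈ A, G.Adj u v → H.Adj u v := by
    intro u hu v hv huv
    by_contra hn
    exact edist_one G huv (hdist u ((hA u).1 hu) v ((hA v).1 hv) huv.ne hn)
  let T0 : V → V → κ := fun u v => if u = v then c0 u else t0 s(u, v)
  have hT0d : ∀ u, T0 u u = c0 u := by intro u; simp [T0]
  have hT0e : ∀ u v, u ≠ v → T0 u v = t0 s(u, v) := by intro u v h; simp [T0, h]
  have hgood : Good G A T0 A (fun _ => ∅) T0 := by
    constructor
    · intro u _ v _ huv
      rw [hT0e u v huv.ne, hT0e v u huv.ne', Sym2.eq_swap]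
    · intro u hu v hv w hw huv huw hne
      by_cases h1 : v = u
      · subst h1
        have h2 : G.Adj v w := huw.resolve_left hne.symm
        rw [hT0d, hT0e v w h2.ne]
        exact (h0.incidence v w (by simpa using hadj v hu w hw h2)).symm
      · have h2 : G.Adj u v := huv.resolve_left h1
        by_cases h3 : w = u
        · subst h3
          rw [hT0d, hT0e w v h2.ne]
          exact h0.incidence w v (by simpa using hadj w hu v hv h2)
        · have h4 : G.Adj u w := huw.resolve_left h3
          rw [hT0e u v h2.ne, hT0e u w h4.ne]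
          exact h0.edge u v w (by simpa using hadj u hu v hv h2)
            (by simpa using hadj u hu w hw h4) hne
    · intro u hu v hv huv
      rw [hT0d, hT0d]
      exact h0.vertex u v (by simpa using hadj u hu v hv huv)
    · intro u _ v _ _
      simp
    · intro u _ v _ _
      rfl
  obtain ⟨T, hT⟩ := hmain A T0 hgood
    (by
      intro y hy a ha b hb hya hyb hne
      by_contra hn
      have : ¬ H.Adj a b := fun h => hn h.adj_sub
      exact edist_two G hya.symm hyb (hdist a ((hA a).1 ha) b ((hA b).1 hb) hne this))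
    (by
      intro a ha b hb c hc hab hac
      exact (hM ((hA a).1 ha)).unique (hadj a ha b hb hab) (hadj a ha c hc hac))
    (by
      intro a ha
      obtain ⟨b, hb, -⟩ := hM ((hA a).1 ha)
      exact ⟨b, (hA b).2 hb.snd_mem, hb.adj_sub⟩)
  let f : V → V → κ := fun u v => if G.Adj u v then T u v else T0 u v
  have hf : ∀ u v, f u v = f v u := by
    intro u v
    simp only [f]
    by_cases h : G.Adj u v
    · rw [if_pos h, if_pos h.symm]
      exact hT.symm u (mem_univ _) v (mem_univ _) h
    · rw [if_neg h, if_neg (fun h' => h h'.symm)]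
      by_cases huv : u = v
      · subst huv; rfl
      · rw [hT0e u v huv, hT0e v u (Ne.symm huv), Sym2.eq_swap]
  refine ⟨fun v => T v v, Sym2.lift ⟨f, hf⟩, ⟨?_, ?_, ?_⟩, ?_, ?_⟩
  · intro u v huv
    exact hT.vert u (mem_univ _) v (mem_univ _) huv
  · intro u v w huv huw hne
    simp only [Sym2.lift_mk, f, if_pos huv, if_pos huw]
    exact hT.inj u (mem_univ _) v (mem_univ _) w (mem_univ _) (Or.inr huv) (Or.inr huw) hne
  · intro u v huv
    simp only [Sym2.lift_mk, f, if_pos huv]
    exact hT.inj u (mem_univ _) v (mem_univ _) u (mem_univ _) (Or.inr huv) (Or.inl rfl) huv.ne'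
  · intro v hv
    have := hT.ext v ((hA v).2 hv) v ((hA v).2 hv) (Or.inl rfl)
    simp only
    rw [this, hT0d]
  · intro e he
    induction e using Sym2.ind with
    | _ u v =>
      rw [SimpleGraph.Subgraph.mem_edgeSet] at he
      have hu := (hA u).2 he.fst_mem
      have hv := (hA v).2 he.snd_mem
      simp only [Sym2.lift_mk, f, if_pos he.adj_sub]
      rw [hT.ext u hu v hv (Or.inr he.adj_sub), hT0e u v he.adj_sub.ne]

theorem extends_edgeless {V : Type*} (G : SimpleGraph V) (hG : ∀ u v, ¬ G.Adj u v)
    (H : G.Subgraph) (κ : Type*) : EveryTotalColoringExtends H κ := by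
  intro c0 t0 _
  refine ⟨c0, t0, ⟨?_, ?_, ?_⟩, fun _ _ => rfl, fun _ _ => rfl⟩
  · intro u v h; exact absurd h (hG u v)
  · intro u v w h; exact absurd h (hG u v)
  · intro u v h; exact absurd h (hG u v)

theorem card_filter_adj_le {V : Type*} [Fintype V] (G : SimpleGraph V) [DecidableRel G.Adj] {d : ℕ}
    (hG : G.maxDegree ≤ d) (v : V) : (univ.filter (G.Adj v)).card ≤ d := by
  have h1 := G.degree_le_maxDegree v
  rw [← G.card_neighborFinset_eq_degree, G.neighborFinset_eq_filter] at h1
  exact h1.trans hG

/-- Maximum degree at most three: five colours. -/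
theorem extends_three {V : Type*} [Fintype V] (G : SimpleGraph V) [DecidableRel G.Adj]
    (hG : G.maxDegree ≤ 3) (H : G.Subgraph) (hH : IsDistThreeMatching H) :
    EveryTotalColoringExtends H (Fin 5) := by
  classical
  rcases isEmpty_or_nonempty V with hV | hV
  · exact extends_edgeless G (fun u => (hV.false u).elim) H _
  apply interface G H hH
  intro A T0 hT0 hA1 hA2 _
  apply main G A hA1 hA2 T0 hT0 _ univ (fun _ => ∅) rfl (subset_univ _)
    (fun _ _ w _ => mem_univ w) (fun _ _ => rfl) _ (fun _ _ _ _ _ => by simp)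
    ⟨hV.some, fun _ _ _ _ _ _ _ _ _ _ => ⟨rfl, rfl⟩⟩
  intro w _
  simpa using card_filter_adj_le G hG w

/-- Maximum degree at most two: four colours. -/
theorem extends_two {V : Type*} [Fintype V] (G : SimpleGraph V) [DecidableRel G.Adj]
    (hG : G.maxDegree ≤ 2) (H : G.Subgraph) (hH : IsDistThreeMatching H) :
    EveryTotalColoringExtends H (Fin 4) := by
  classical
  apply interface G H hH
  intro A T0 hT0 hA1 _ hA3
  exact main2 G A hA1 hA3 T0 hT0 _ univ rfl (subset_univ _)
    (fun _ _ w _ => mem_univ w) (fun w _ => card_filter_adj_le G hG w)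

/-- Maximum degree at most one: three colours. -/
theorem extends_one {V : Type*} [Fintype V] (G : SimpleGraph V) [DecidableRel G.Adj]
    (hG : G.maxDegree ≤ 1) (H : G.Subgraph) (hH : IsDistThreeMatching H) :
    EveryTotalColoringExtends H (Fin 3) := by
  classical
  apply interface G H hH
  intro A T0 hT0 _ _ _
  exact main1 G A T0 hT0 _ univ rfl (subset_univ _) (fun w _ => card_filter_adj_le G hG w)

/-- Maximum degree at most three: at least six colours. -/
theorem extends_six {V : Type*} [Fintype V] (G : SimpleGraph V) [DecidableRel G.Adj]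
    (hG : G.maxDegree ≤ 3) (H : G.Subgraph) (hH : IsDistThreeMatching H) (k : ℕ) (hk : 6 ≤ k) :
    EveryTotalColoringExtends H (Fin k) := by
  classical
  apply interface G H hH
  intro A T0 hT0 hA1 hA2 _
  exact main6 (by simpa using hk) G A hA1 hA2 T0 hT0 _ univ rfl (subset_univ _)
    (fun _ _ w _ => mem_univ w) (fun w _ => card_filter_adj_le G hG w)

/-- Extension for all graphs with maximum degree at most three and at least `Δ + 2` colours. -/
theorem extends_le_three {V : Type*} [Fintype V] (G : SimpleGraph V) [DecidableRel G.Adj]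
    (hG : G.maxDegree ≤ 3) (H : G.Subgraph) (hH : IsDistThreeMatching H) (k : ℕ)
    (hk : G.maxDegree + 2 ≤ k) : EveryTotalColoringExtends H (Fin k) := by
  rcases Nat.eq_zero_or_pos G.maxDegree with h | h
  · apply extends_edgeless
    intro u v huv
    have h1 := card_filter_adj_le G h.le u
    have h2 : v ∈ univ.filter (G.Adj u) := by simpa using huv
    have h3 := card_pos.2 ⟨v, h2⟩
    omega
  · have hcases : k = 3 ∨ k = 4 ∨ k = 5 ∨ 6 ≤ k := by omega
    rcases hcases with rfl | rfl | rfl | hk'
    · exact extends_one G (by omega) H hH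
    · exact extends_two G (by omega) H hH
    · exact extends_three G hG H hH
    · exact extends_six G hG H hH k hk'

end MP_db9399_co.Sub3
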